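import Pool.Agent.Lib.MP_2b14c6_co.Geom

/-!
# Cutting a cell by a further plane
-/

set_option autoImplicit false

namespace Pool.Agent.Lib.MP_2b14c6_co

variable {ι : Type*}

/-- the open edge `i` of the cell of `x` -/
def IsEdgePt (u : ι → E3) (s : Finset ι) (x : E3) (i : ι) (z : E3) : Prop :=
  inner ℝ (u i) z = 0 ∧ ∀ j ∈ s, j ≠ i → 0 < inner ℝ (u j) z * inner ℝ (u j) x

theorem mem_sideSet {u : ι → E3} {s : Finset ι} {x : E3} {i : ι} :
    i ∈ sideSet u s x ↔ i ∈ s ∧ ∃ z, IsEdgePt u s x i z := Iff.rfl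

/-- an edge point may be moved along the edge -/
theorem IsEdgePt.pert {u : ι → E3} {s : Finset ι} {x : E3} {i : ι} {z v : E3}
    (hz : IsEdgePt u s x i z) (hv : inner ℝ (u i) v = 0) :
    ∃ ε : ℝ, 0 < ε ∧ ∀ δ : ℝ, |δ| ≤ ε → IsEdgePt u s x i (z + δ • v) := by
  obtain ⟨ε, hε, h⟩ := exists_pert s (fun j => inner ℝ (u j) z * inner ℝ (u j) x)
    (fun j => inner ℝ (u j) v * inner ℝ (u j) x) (fun j => j ≠ i) (fun j hj hji => hz.2 j hj hji)
  refine ⟨ε, hε, fun δ hδ => ⟨?_, fun j hj hji => ?_⟩⟩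
  · rw [inner_add_right, inner_smul_right, hz.1, hv]; simp
  · have := h δ hδ j hj hji
    rw [inner_add_right, inner_smul_right]
    nlinarith

/-- if the new plane meets the open cell, it cuts an edge in each of two directions -/
theorem exists_cut_edge {u : ι → E3} {s : Finset ι} {k : ι}
    (hGP : ∀ i ∈ s, ∀ j ∈ s, i ≠ j → ∀ z : E3, inner ℝ (u i) z = 0 → inner ℝ (u j) z = 0 →
      inner ℝ (u k) z = 0 → z = 0) {x z₀ w : E3}
    (hz₀ : ∀ j ∈ s, 0 < inner ℝ (u j) z₀ * inner ℝ (u j) x) (hk₀ : inner ℝ (u k) z₀ = 0)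
    (hkw : inner ℝ (u k) w = 0) (hw : ∑ j ∈ s, inner ℝ (u j) w * inner ℝ (u j) x = 0)
    (hneg : ∃ j ∈ s, inner ℝ (u j) w * inner ℝ (u j) x < 0) :
    ∃ i ∈ s, inner ℝ (u i) w * inner ℝ (u i) x < 0 ∧
      ∃ z, IsEdgePt u s x i z ∧ inner ℝ (u k) z = 0 := by
  classical
  set N := s.filter (fun j => inner ℝ (u j) w * inner ℝ (u j) x < 0) with hN
  have hNne : N.Nonempty := by
    obtain ⟨j, hj, h⟩ := hneg
    exact ⟨j, Finset.mem_filter.2 ⟨hj, h⟩⟩
  obtain ⟨i, hiN, hi⟩ := N.exists_min_image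
    (fun j => (inner ℝ (u j) z₀ * inner ℝ (u j) x) / (-(inner ℝ (u j) w * inner ℝ (u j) x))) hNne
  obtain ⟨his, hineg⟩ := Finset.mem_filter.1 hiN
  set t := (inner ℝ (u i) z₀ * inner ℝ (u i) x) / (-(inner ℝ (u i) w * inner ℝ (u i) x)) with ht
  have ht0 : 0 < t := div_pos (hz₀ i his) (by linarith)
  have hval : ∀ j, inner ℝ (u j) (z₀ + t • w) * inner ℝ (u j) x =
      inner ℝ (u j) z₀ * inner ℝ (u j) x + t * (inner ℝ (u j) w * inner ℝ (u j) x) := by
    intro j
    rw [inner_add_right, inner_smul_right]; ring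
  have hx : inner ℝ (u i) x ≠ 0 := by
    intro h
    rw [h] at hineg; simp at hineg
  have hi0 : inner ℝ (u i) (z₀ + t • w) = 0 := by
    have h1 : inner ℝ (u i) (z₀ + t • w) * inner ℝ (u i) x = 0 := by
      rw [hval, ht, div_neg, neg_mul, div_mul_cancel₀ _ hineg.ne]
      ring
    exact (mul_eq_zero.1 h1).resolve_right hx
  have hk1 : inner ℝ (u k) (z₀ + t • w) = 0 := by
    rw [inner_add_right, inner_smul_right, hk₀, hkw]; simp
  have hz1 : z₀ + t • w ≠ 0 := by
    intro h
    have h1 : ∑ j ∈ s, inner ℝ (u j) (z₀ + t • w) * inner ℝ (u j) x =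
        ∑ j ∈ s, inner ℝ (u j) z₀ * inner ℝ (u j) x := by
      simp_rw [hval]
      rw [Finset.sum_add_distrib, ← Finset.mul_sum, hw, mul_zero, add_zero]
    rw [h] at h1
    simp only [inner_zero_right, zero_mul, Finset.sum_const_zero] at h1
    have : 0 < ∑ j ∈ s, inner ℝ (u j) z₀ * inner ℝ (u j) x :=
      Finset.sum_pos hz₀ ⟨i, his⟩
    linarith
  refine ⟨i, his, hineg, z₀ + t • w, ⟨hi0, fun j hj hji => ?_⟩, hk1⟩
  have hge : 0 ≤ inner ℝ (u j) (z₀ + t • w) * inner ℝ (u j) x := by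
    rw [hval]
    by_cases hjN : inner ℝ (u j) w * inner ℝ (u j) x < 0
    · have h1 := hi j (Finset.mem_filter.2 ⟨hj, hjN⟩)
      change t ≤ _ at h1
      rw [le_div_iff₀ (by linarith)] at h1
      linarith
    · push Not at hjN
      have := hz₀ j hj
      have := mul_nonneg ht0.le hjN
      linarith
  refine lt_of_le_of_ne hge fun h => ?_
  have hxj : inner ℝ (u j) x ≠ 0 := by
    intro h'
    have := hz₀ j hj
    rw [h'] at this; simp at this
  have h0 : inner ℝ (u j) (z₀ + t • w) = 0 := (mul_eq_zero.1 h.symm).resolve_right hxj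
  exact hz1 (hGP j hj i his hji _ h0 hi0 hk1)

/-- existence of a direction in the new plane with vanishing sum -/
theorem exists_dir (u : ι → E3) (s : Finset ι) (k : ι) (x : E3) :
    ∃ w : E3, w ≠ 0 ∧ inner ℝ (u k) w = 0 ∧
      ∑ j ∈ s, inner ℝ (u j) w * inner ℝ (u j) x = 0 := by
  let L : E3 →ₗ[ℝ] (Fin 2 → ℝ) := LinearMap.pi
    ![(innerSL ℝ (u k)).toLinearMap,
      ∑ j ∈ s, (inner ℝ (u j) x : ℝ) • (innerSL ℝ (u j)).toLinearMap]
  have hL : LinearMap.ker L ≠ ⊥ := LinearMap.ker_ne_bot_of_finrank_lt (by simp)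
  obtain ⟨w, hw, hw0⟩ := (Submodule.ne_bot_iff _).1 hL
  have h0 := congrFun (LinearMap.mem_ker.1 hw) 0
  have h1 := congrFun (LinearMap.mem_ker.1 hw) 1
  simp [L] at h0 h1
  refine ⟨w, hw0, h0, ?_⟩
  rw [← h1]
  exact Finset.sum_congr rfl fun j _ => mul_comm _ _

/-- The cutting step. -/
theorem exists_big_side_insert [DecidableEq ι] {u : ι → E3} {s : Finset ι} {k : ι} (hk : k ∉ s)
    (hGP : GP u (insert k s)) (hs : 3 ≤ s.card) {x : E3} (hx : ∀ i ∈ s, inner ℝ (u i) x ≠ 0)
    (h5 : 5 ≤ (sideSet u s x).ncard) :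
    ∃ x' : E3, (∀ i ∈ insert k s, inner ℝ (u i) x' ≠ 0) ∧
      5 ≤ (sideSet u (insert k s) x').ncard := by
  have hfin : ∀ (t : Finset ι) (y : E3), (sideSet u t y).Finite := fun t y =>
    t.finite_toSet.subset fun i hi => hi.1
  have hs' : 3 ≤ (insert k s).card := by rw [Finset.card_insert_of_notMem hk]; omega
  have hkm : k ∈ insert k s := Finset.mem_insert_self _ _
  have hsm : ∀ {i}, i ∈ s → i ∈ insert k s := fun h => Finset.mem_insert_of_mem h
  have hki : ∀ {i}, i ∈ s → i ≠ k := fun h h' => hk (h' ▸ h)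
  by_cases hcut : ∃ z₀ : E3, (∀ j ∈ s, 0 < inner ℝ (u j) z₀ * inner ℝ (u j) x) ∧
      inner ℝ (u k) z₀ = 0
  · obtain ⟨z₀, hz₀, hk₀⟩ := hcut
    -- the two sets of edges
    set Sp : Set ι := {i | i ∈ s ∧ ∃ z, IsEdgePt u s x i z ∧ 0 < inner ℝ (u k) z} with hSp
    set Sm : Set ι := {i | i ∈ s ∧ ∃ z, IsEdgePt u s x i z ∧ inner ℝ (u k) z < 0} with hSm
    have hSpf : Sp.Finite := s.finite_toSet.subset fun i hi => hi.1
    have hSmf : Sm.Finite := s.finite_toSet.subset fun i hi => hi.1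
    have hboth : ∀ i ∈ s, (∃ z, IsEdgePt u s x i z ∧ inner ℝ (u k) z = 0) → i ∈ Sp ∩ Sm := by
      rintro i hi ⟨z, hz, hkz⟩
      obtain ⟨v, hv1, hv2⟩ := hGP.exists_eval₂ hs' (hsm hi) hkm (hki hi) 0 1
      obtain ⟨ε, hε, h⟩ := hz.pert hv1
      refine ⟨⟨hi, z + ε • v, h ε (abs_of_pos hε).le, ?_⟩, ⟨hi, z + (-ε) • v, h (-ε) (by
        rw [abs_neg]; exact (abs_of_pos hε).le), ?_⟩⟩
      · rw [inner_add_right, inner_smul_right, hkz, hv2]; linarith
      · rw [inner_add_right, inner_smul_right, hkz, hv2]; linarith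
    have hunion : sideSet u s x ⊆ Sp ∪ Sm := by
      rintro i ⟨hi, z, hz⟩
      rcases lt_trichotomy (inner ℝ (u k) z) 0 with h | h | h
      · exact Or.inr ⟨hi, z, hz, h⟩
      · exact Or.inl (hboth i hi ⟨z, hz, h⟩).1
      · exact Or.inl ⟨hi, z, hz, h⟩
    -- two edges are cut
    have hint : 2 ≤ (Sp ∩ Sm).ncard := by
      obtain ⟨w, hw0, hkw, hsum⟩ := exists_dir u s k x
      have hgp' : ∀ i ∈ s, ∀ j ∈ s, i ≠ j → ∀ z : E3, inner ℝ (u i) z = 0 →
          inner ℝ (u j) z = 0 → inner ℝ (u k) z = 0 → z = 0 := fun i hi j hj hij z h1 h2 h3 =>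
        hGP i (hsm hi) j (hsm hj) k hkm hij (hki hi) (hki hj) z h1 h2 h3
      have hnz : ∃ j ∈ s, inner ℝ (u j) w * inner ℝ (u j) x ≠ 0 := by
        by_contra hcon
        push Not at hcon
        have : ∀ j ∈ s, inner ℝ (u j) w = 0 := fun j hj =>
          (mul_eq_zero.1 (hcon j hj)).resolve_right (hx j hj)
        exact hw0 ((hGP.mono (Finset.subset_insert k s)).eq_zero hs this)
      have hneg : ∃ j ∈ s, inner ℝ (u j) w * inner ℝ (u j) x < 0 := by
        by_contra hcon
        push Not at hcon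
        obtain ⟨j, hj, hj0⟩ := hnz
        exact hj0 ((Finset.sum_eq_zero_iff_of_nonneg hcon).1 hsum j hj)
      have hpos : ∃ j ∈ s, 0 < inner ℝ (u j) w * inner ℝ (u j) x := by
        by_contra hcon
        push Not at hcon
        obtain ⟨j, hj, hj0⟩ := hnz
        exact hj0 ((Finset.sum_eq_zero_iff_of_nonpos hcon).1 hsum j hj)
      obtain ⟨i, hi, hineg, hi'⟩ := exists_cut_edge hgp' hz₀ hk₀ hkw hsum hneg
      obtain ⟨j, hj, hjneg, hj'⟩ := exists_cut_edge (w := -w) hgp' hz₀ hk₀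
        (by rw [inner_neg_right, hkw, neg_zero])
        (by simp only [inner_neg_right, neg_mul, Finset.sum_neg_distrib, hsum, neg_zero])
        (by
          obtain ⟨j, hj, h⟩ := hpos
          exact ⟨j, hj, by rw [inner_neg_right]; linarith⟩)
      have hij : i ≠ j := by
        rintro rfl
        rw [inner_neg_right] at hjneg
        linarith
      have hsub : ({i, j} : Set ι) ⊆ Sp ∩ Sm := by
        rintro l (rfl | rfl)
        · exact hboth _ hi hi'
        · exact hboth _ hj hj'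
      calc 2 = ({i, j} : Set ι).ncard := (Set.ncard_pair hij).symm
        _ ≤ _ := Set.ncard_le_ncard hsub (hSpf.inter_of_left _)
    -- points on both sides
    obtain ⟨v, hv⟩ := hGP.exists_eval₁ hs' hkm 1
    obtain ⟨ε, hε, hpert⟩ := exists_pert s (fun j => inner ℝ (u j) z₀ * inner ℝ (u j) x)
      (fun j => inner ℝ (u j) v * inner ℝ (u j) x) (fun _ => True) (fun j hj _ => hz₀ j hj)
    have hcell : ∀ δ : ℝ, |δ| ≤ ε → ∀ j ∈ s,
        0 < inner ℝ (u j) (z₀ + δ • v) * inner ℝ (u j) x := by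
      intro δ hδ j hj
      have := hpert δ hδ j hj trivial
      rw [inner_add_right, inner_smul_right]
      nlinarith
    have hkval : ∀ δ : ℝ, inner ℝ (u k) (z₀ + δ • v) = δ := by
      intro δ
      rw [inner_add_right, inner_smul_right, hk₀, hv]; ring
    have hmul : ∀ {a b c : ℝ}, 0 < a * c → 0 < b * c → 0 < a * b := by
      intro a b c h1 h2
      have h3 : 0 < (a * b) * (c * c) := by
        have := mul_pos h1 h2
        nlinarith
      have h4 : c ≠ 0 := by
        rintro rfl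
        simp at h1
      exact (mul_pos_iff_of_pos_right (mul_self_pos.2 h4)).1 h3
    -- the cell on the side `δ`
    have hmain : ∀ δ : ℝ, |δ| ≤ ε → δ ≠ 0 → ∀ T : Set ι,
        (∀ i ∈ T, i ∈ s ∧ ∃ z, IsEdgePt u s x i z ∧ 0 < inner ℝ (u k) z * δ) →
        (∀ i ∈ insert k s, inner ℝ (u i) (z₀ + δ • v) ≠ 0) ∧
        insert k T ⊆ sideSet u (insert k s) (z₀ + δ • v) := by
      intro δ hδ hδ0 T hT
      refine ⟨fun i hi => ?_, ?_⟩
      · rcases Finset.mem_insert.1 hi with rfl | hi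
        · rw [hkval]; exact hδ0
        · intro h
          have := hcell δ hδ i hi
          rw [h] at this; simp at this
      · rintro i (rfl | hi)
        · refine ⟨hkm, z₀, hk₀, fun j hj hji => ?_⟩
          have hj' : j ∈ s := (Finset.mem_insert.1 hj).resolve_left hji
          exact hmul (hz₀ j hj') (hcell δ hδ j hj')
        · obtain ⟨his, z, hz, hkz⟩ := hT i hi
          refine ⟨hsm his, z, hz.1, fun j hj hji => ?_⟩
          rcases Finset.mem_insert.1 hj with rfl | hj
          · rw [hkval]; exact hkz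
          · exact hmul (hz.2 j hj hji) (hcell δ hδ j hj)
    have hcount : 7 ≤ Sp.ncard + Sm.ncard := by
      have h1 := Set.ncard_union_add_ncard_inter Sp Sm hSpf hSmf
      have h2 : (sideSet u s x).ncard ≤ (Sp ∪ Sm).ncard :=
        Set.ncard_le_ncard hunion (hSpf.union hSmf)
      omega
    have hkSp : k ∉ Sp := fun h => hk h.1
    have hkSm : k ∉ Sm := fun h => hk h.1
    rcases (by omega : 4 ≤ Sp.ncard ∨ 4 ≤ Sm.ncard) with h4 | h4
    · obtain ⟨h1, h2⟩ := hmain ε (abs_of_pos hε).le hε.ne' Sp (by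
        rintro i ⟨hi, z, hz, hkz⟩
        exact ⟨hi, z, hz, mul_pos hkz hε⟩)
      refine ⟨_, h1, ?_⟩
      have h3 := Set.ncard_le_ncard h2 (hfin _ _)
      rw [Set.ncard_insert_of_notMem hkSp hSpf] at h3
      omega
    · obtain ⟨h1, h2⟩ := hmain (-ε) (by rw [abs_neg]; exact (abs_of_pos hε).le)
        (neg_ne_zero.2 hε.ne') Sm (by
        rintro i ⟨hi, z, hz, hkz⟩
        exact ⟨hi, z, hz, mul_pos_of_neg_of_neg hkz (by linarith)⟩)
      refine ⟨_, h1, ?_⟩
      have h3 := Set.ncard_le_ncard h2 (hfin _ _)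
      rw [Set.ncard_insert_of_notMem hkSm hSmf] at h3
      omega
  · push Not at hcut
    have hxx : ∀ j ∈ s, 0 < inner ℝ (u j) x * inner ℝ (u j) x := fun j hj =>
      mul_self_pos.2 (hx j hj)
    have hkx : inner ℝ (u k) x ≠ 0 := hcut x hxx
    have hsame : ∀ z : E3, (∀ j ∈ s, 0 < inner ℝ (u j) z * inner ℝ (u j) x) →
        0 < inner ℝ (u k) z * inner ℝ (u k) x := by
      intro z hz
      by_contra hcon
      push Not at hcon
      have hz' := hcut z hz
      have hlt : inner ℝ (u k) z * inner ℝ (u k) x < 0 :=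
        lt_of_le_of_ne hcon (mul_ne_zero hz' hkx)
      -- a positive combination on the plane
      refine hcut ((inner ℝ (u k) x * inner ℝ (u k) x) • z -
        (inner ℝ (u k) z * inner ℝ (u k) x) • x) (fun j hj => ?_) ?_
      · rw [inner_sub_right, inner_smul_right, inner_smul_right]
        have h1 := mul_pos (mul_self_pos.2 hkx) (hz j hj)
        have h2 := mul_pos (neg_pos.2 hlt) (hxx j hj)
        nlinarith
      · rw [inner_sub_right, inner_smul_right, inner_smul_right]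
        ring
    refine ⟨x, fun i hi => ?_, ?_⟩
    · rcases Finset.mem_insert.1 hi with rfl | hi
      · exact hkx
      · exact hx i hi
    · refine h5.trans (Set.ncard_le_ncard ?_ (hfin _ _))
      rintro i ⟨hi, z, hz⟩
      have hge : 0 ≤ inner ℝ (u k) z * inner ℝ (u k) x := by
        by_contra hcon
        push Not at hcon
        -- `z + ε x` lies in the open cell
        set ε := -(inner ℝ (u k) z * inner ℝ (u k) x) / (2 * (inner ℝ (u k) x * inner ℝ (u k) x))
          with hε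
        have hε0 : 0 < ε := div_pos (by linarith) (mul_pos two_pos (mul_self_pos.2 hkx))
        have h1 := hsame (z + ε • x) (fun j hj => ?_)
        · rw [inner_add_right, inner_smul_right] at h1
          have h2 : ε * (inner ℝ (u k) x * inner ℝ (u k) x) =
              -(inner ℝ (u k) z * inner ℝ (u k) x) / 2 := by
            rw [hε]; field_simp
          nlinarith
        · rw [inner_add_right, inner_smul_right]
          have h3 := mul_pos hε0 (hxx j hj)
          by_cases hji : j = i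
          · subst hji
            rw [hz.1]; nlinarith
          · have := hz.2 j hj hji
            nlinarith
      obtain ⟨z', hz', hkz'⟩ : ∃ z', IsEdgePt u s x i z' ∧
          0 < inner ℝ (u k) z' * inner ℝ (u k) x := by
        rcases hge.lt_or_eq with h | h
        · exact ⟨z, hz, h⟩
        · have hkz : inner ℝ (u k) z = 0 := (mul_eq_zero.1 h.symm).resolve_right hkx
          obtain ⟨v, hv1, hv2⟩ := hGP.exists_eval₂ hs' (hsm hi) hkm (hki hi) 0
            (inner ℝ (u k) x)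
          obtain ⟨ε, hε, h⟩ := (show IsEdgePt u s x i z from hz).pert hv1
          refine ⟨z + ε • v, h ε (abs_of_pos hε).le, ?_⟩
          rw [inner_add_right, inner_smul_right, hkz, hv2]
          have := mul_pos hε (mul_self_pos.2 hkx)
          nlinarith
      refine ⟨hsm hi, z', hz'.1, fun j hj hji => ?_⟩
      rcases Finset.mem_insert.1 hj with rfl | hj
      · exact hkz'
      · exact hz'.2 j hj hji

end Pool.Agent.Lib.MP_2b14c6_co
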