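import Mathlib

/-!
# Arrangements of great circles: definitions

The unit sphere `S2` of Euclidean 3-space, great circles, simple arrangements, faces and sides.
-/

set_option autoImplicit false

namespace Pool.Agent.Lib.MP_2b14c6_co

/-- The unit sphere of Euclidean 3-space. -/
abbrev S2 : Type := Metric.sphere (0 : EuclideanSpace ℝ (Fin 3)) 1

/-- A great circle: the intersection of the unit sphere with a plane through its centre. -/
def IsGreatCircle (C : Set S2) : Prop :=
  ∃ u : EuclideanSpace ℝ (Fin 3), u ≠ 0 ∧
    C = {x : S2 | inner ℝ u (x : EuclideanSpace ℝ (Fin 3)) = 0}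

/-- A simple arrangement: a finite set of (distinct) great circles such that no point of the
sphere lies on three of them. -/
def IsSimpleArrangement (A : Finset (Set S2)) : Prop :=
  (∀ C ∈ A, IsGreatCircle C) ∧
    ∀ C₁ ∈ A, ∀ C₂ ∈ A, ∀ C₃ ∈ A, C₁ ≠ C₂ → C₁ ≠ C₃ → C₂ ≠ C₃ →
      ∀ x : S2, ¬ (x ∈ C₁ ∧ x ∈ C₂ ∧ x ∈ C₃)

/-- The complement of the union of the circles. -/
def complementOf (A : Finset (Set S2)) : Set S2 := {x | ∀ C ∈ A, x ∉ C}

/-- The faces: the connected components of the complement of the union of the circles. -/
def IsFace (A : Finset (Set S2)) (F : Set S2) : Prop :=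
  ∃ x ∈ complementOf A, F = connectedComponentIn (complementOf A) x

/-- A circular arc in the boundary of `F`: a connected set with more than one point that is
contained in one of the circles and in the boundary of `F`. -/
def IsBoundaryArc (A : Finset (Set S2)) (F : Set S2) (a : Set S2) : Prop :=
  a ⊆ frontier F ∧ IsConnected a ∧ a.Nontrivial ∧ ∃ C ∈ A, a ⊆ C

/-- The number of sides of `F`: the number of maximal circular arcs in its boundary. -/
noncomputable def numSides (A : Finset (Set S2)) (F : Set S2) : ℕ∞ :=
  {a : Set S2 | Maximal (IsBoundaryArc A F) a}.encard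

end Pool.Agent.Lib.MP_2b14c6_co
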