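import Pool.Agent.Lib.MP_2b14c6_co.Lower

/-!
# The arrangements with normal vectors `(1, 2^i, (-8)^i)`

All cells have at most five sides.
-/

set_option autoImplicit false

namespace Pool.Agent.Lib.MP_2b14c6_co

/-- the function `p + q 2^x + r (-8)^x` -/
def fam (p q r : ℝ) (x : ℕ) : ℝ := p + q * 2 ^ x + r * (-8) ^ x

theorem abs_neg_eight (r : ℝ) (x : ℕ) : |r * (-8) ^ x| = |r| * 8 ^ x := by
  rw [abs_mul, abs_pow, abs_neg, abs_of_pos (by norm_num : (0 : ℝ) < 8)]

theorem pow_bound (d : ℕ) (hd : 1 ≤ d) : (1 : ℝ) + 9 / 4 * 2 ^ d < 8 ^ d := by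
  have h1 : (8 : ℝ) ^ d = 4 ^ d * 2 ^ d := by rw [← mul_pow]; norm_num
  have h4 : (4 : ℝ) ≤ 4 ^ d := by
    calc (4 : ℝ) = 4 ^ 1 := by norm_num
      _ ≤ 4 ^ d := pow_le_pow_right₀ (by norm_num) hd
  have h2 : (2 : ℝ) ≤ 2 ^ d := by
    calc (2 : ℝ) = 2 ^ 1 := by norm_num
      _ ≤ 2 ^ d := pow_le_pow_right₀ (by norm_num) hd
  rw [h1]
  nlinarith

/-- the forbidden sign pattern -/
theorem fam_pattern {p q r : ℝ} {i j m : ℕ} (hij : i < j) (hjm : j < m) (h1 : 0 < fam p q r i)
    (h2 : fam p q r j < 0) (h3 : 0 < fam p q r m) (h4 : 0 < fam p q r (m + 1)) : False := by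
  obtain ⟨d, rfl⟩ : ∃ d, m = j + d := ⟨m - j, by omega⟩
  obtain ⟨g, rfl⟩ : ∃ g, j = i + g := ⟨j - i, by omega⟩
  have hd : 1 ≤ d := by omega
  have hg : 1 ≤ g := by omega
  unfold fam at h1 h2 h3 h4
  have a1 := abs_le.1 (abs_neg_eight r i).le
  have a2 := abs_le.1 (abs_neg_eight r (i + g)).le
  have a3 := abs_neg_eight r (i + g + d)
  set R := r * (-8) ^ (i + g + d) with hR
  have hR' : r * (-8) ^ (i + g + d + 1) = -8 * R := by rw [hR, pow_succ]; ring
  rw [hR'] at h4
  set T := |r| * 8 ^ (i + g) with hT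
  have hT0 : 0 ≤ T := by positivity
  have hTi : |r| * 8 ^ i * 8 ≤ T := by
    rw [hT, pow_add]
    have : (8 : ℝ) ≤ 8 ^ g := by
      calc (8 : ℝ) = 8 ^ 1 := by norm_num
        _ ≤ 8 ^ g := pow_le_pow_right₀ (by norm_num) hg
    have h0 : 0 ≤ |r| * 8 ^ i := by positivity
    nlinarith
  have hTm : |R| = T * 8 ^ d := by rw [a3, hT, pow_add]; ring
  have h8d : (8 : ℝ) ≤ 8 ^ d := by
    calc (8 : ℝ) = 8 ^ 1 := by norm_num
      _ ≤ 8 ^ d := pow_le_pow_right₀ (by norm_num) hd
  have h2g : (2 : ℝ) ≤ 2 ^ g := by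
    calc (2 : ℝ) = 2 ^ 1 := by norm_num
      _ ≤ 2 ^ g := pow_le_pow_right₀ (by norm_num) hg
  have h2d : (2 : ℝ) ≤ 2 ^ d := by
    calc (2 : ℝ) = 2 ^ 1 := by norm_num
      _ ≤ 2 ^ d := pow_le_pow_right₀ (by norm_num) hd
  have hX0 : (0 : ℝ) < 2 ^ i := by positivity
  set X := (2 : ℝ) ^ i with hX
  have e1 : (2 : ℝ) ^ (i + g) = X * 2 ^ g := by rw [pow_add]
  have e2 : (2 : ℝ) ^ (i + g + d) = X * 2 ^ g * 2 ^ d := by rw [pow_add, pow_add]
  have e3 : (2 : ℝ) ^ (i + g + d + 1) = 2 * (X * 2 ^ g * 2 ^ d) := by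
    rw [pow_succ, pow_add, pow_add]; ring
  rw [e1] at h2
  rw [e2] at h3
  rw [e3] at h4
  set Y := X * 2 ^ g with hY
  have hXY : 2 * X ≤ Y := by rw [hY]; nlinarith
  have hY0 : 0 < Y := by positivity
  set W := Y * 2 ^ d with hW
  have hYW : 2 * Y ≤ W := by rw [hW]; nlinarith
  set r1 := r * (-8) ^ i with hr1
  set r2 := r * (-8) ^ (i + g) with hr2
  clear_value R T X W r1 r2
  rcases le_or_gt q 0 with hq | hq
  · -- the base function is nonincreasing
    have hqW : q * W ≤ q * Y := mul_le_mul_of_nonpos_left (by linarith) hq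
    have hqW0 : q * W ≤ 0 := mul_nonpos_of_nonpos_of_nonneg hq (by linarith)
    have hpos : 0 < p + q * W := by linarith
    have hRlt : |R| < p + q * W := by
      rw [abs_lt]
      constructor <;> linarith
    have h5 : T * 8 ≤ T * 8 ^ d := mul_le_mul_of_nonneg_left h8d hT0
    rw [hTm] at hRlt
    linarith [a2.1]
  · have hqX : q * (2 * X) ≤ q * Y := mul_le_mul_of_nonneg_left hXY hq.le
    have s1 : q * Y < 9 / 4 * T := by linarith [a1.2, a2.1]
    have hqY : 0 < q * Y := mul_pos hq hY0
    have hTpos : 0 < T := by linarith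
    have hqW : 0 < q * W := mul_pos hq (by linarith)
    have hRlt : |R| < T + q * W := by
      rw [abs_lt]
      constructor <;> linarith [a2.1]
    have s2 : q * W < 9 / 4 * T * 2 ^ d := by
      rw [hW, ← mul_assoc]
      exact mul_lt_mul_of_pos_right s1 (by positivity)
    have s3 := mul_lt_mul_of_pos_left (pow_bound d hd) hTpos
    rw [hTm] at hRlt
    linarith

theorem fam_neg (p q r : ℝ) (x : ℕ) : fam (-p) (-q) (-r) x = -fam p q r x := by
  unfold fam; ring

/-- three zeros -/
theorem fam_zero {p q r : ℝ} {i j k : ℕ} (hij : i < j) (hjk : j < k) (h1 : fam p q r i = 0)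
    (h2 : fam p q r j = 0) (h3 : fam p q r k = 0) : p = 0 ∧ q = 0 ∧ r = 0 := by
  obtain ⟨d, rfl⟩ : ∃ d, k = j + d := ⟨k - j, by omega⟩
  obtain ⟨g, rfl⟩ : ∃ g, j = i + g := ⟨j - i, by omega⟩
  have hd : 1 ≤ d := by omega
  have hg : 1 ≤ g := by omega
  unfold fam at h1 h2 h3
  have h2g : (2 : ℝ) ≤ 2 ^ g := by
    calc (2 : ℝ) = 2 ^ 1 := by norm_num
      _ ≤ 2 ^ g := pow_le_pow_right₀ (by norm_num) hg
  have h8g : (8 : ℝ) ≤ 8 ^ g := by
    calc (8 : ℝ) = 8 ^ 1 := by norm_num
      _ ≤ 8 ^ g := pow_le_pow_right₀ (by norm_num) hg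
  have hX0 : (0 : ℝ) < 2 ^ i := by positivity
  have hE0 : (0 : ℝ) < 8 ^ i := by positivity
  have a1 := abs_neg_eight r i
  have a2 := abs_neg_eight r (i + g)
  have a3 := abs_neg_eight r (i + g + d)
  have e1 : (2 : ℝ) ^ (i + g) = 2 ^ i * 2 ^ g := by rw [pow_add]
  have e2 : (2 : ℝ) ^ (i + g + d) = 2 ^ (i + g) * 2 ^ d := by rw [pow_add]
  have f1 : (8 : ℝ) ^ (i + g) = 8 ^ i * 8 ^ g := by rw [pow_add]
  have f2 : (8 : ℝ) ^ (i + g + d) = 8 ^ (i + g) * 8 ^ d := by rw [pow_add]
  -- first inequality
  have b1 : |q| * (2 ^ (i + g) - 2 ^ i) ≤ |r| * 8 ^ (i + g) + |r| * 8 ^ i := by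
    have : q * (2 ^ (i + g) - 2 ^ i) = r * (-8) ^ i - r * (-8) ^ (i + g) := by linarith
    calc |q| * (2 ^ (i + g) - 2 ^ i) = |q * (2 ^ (i + g) - 2 ^ i)| := by
          rw [abs_mul, abs_of_nonneg (a := (2 : ℝ) ^ (i + g) - 2 ^ i)]
          rw [e1]; nlinarith
      _ = |r * (-8) ^ i - r * (-8) ^ (i + g)| := by rw [this]
      _ ≤ |r * (-8) ^ i| + |r * (-8) ^ (i + g)| := abs_sub _ _
      _ = _ := by rw [a1, a2]; ring
  have hYp : (0 : ℝ) < 2 ^ (i + g) := by positivity
  have b2 : |r| * 8 ^ (i + g + d) - |r| * 8 ^ (i + g) ≤ |q| * 2 ^ (i + g + d) := by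
    have : r * (-8) ^ (i + g + d) = r * (-8) ^ (i + g) - q * (2 ^ (i + g + d) - 2 ^ (i + g)) := by
      linarith
    have hle : (0 : ℝ) ≤ 2 ^ (i + g + d) - 2 ^ (i + g) := by
      rw [e2]
      have : (1 : ℝ) ≤ 2 ^ d := one_le_pow₀ (by norm_num)
      nlinarith
    have h5 : |r * (-8) ^ (i + g + d)| ≤ |r * (-8) ^ (i + g)| +
        |q * (2 ^ (i + g + d) - 2 ^ (i + g))| := by
      rw [this]; exact abs_sub _ _
    rw [a2, a3, abs_mul q, abs_of_nonneg hle] at h5
    have : |q| * (2 ^ (i + g + d) - 2 ^ (i + g)) ≤ |q| * 2 ^ (i + g + d) := by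
      apply mul_le_mul_of_nonneg_left _ (abs_nonneg q)
      linarith
    linarith
  have hTi : |r| * 8 ^ i * 8 ≤ |r| * 8 ^ (i + g) := by
    rw [f1]
    have h0 : 0 ≤ |r| * 8 ^ i := by positivity
    nlinarith
  have hXi : |q| * 2 ^ i * 2 ≤ |q| * 2 ^ (i + g) := by
    rw [e1]
    have h0 : 0 ≤ |q| * 2 ^ i := by positivity
    nlinarith
  set T := |r| * 8 ^ (i + g) with hT
  set Q := |q| * 2 ^ (i + g) with hQ
  have b3 : Q ≤ 9 / 4 * T := by nlinarith
  have b4 : T * 8 ^ d - T ≤ Q * 2 ^ d := by
    have g1 : |r| * 8 ^ (i + g + d) = T * 8 ^ d := by rw [hT, f2]; ring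
    have g2 : |q| * 2 ^ (i + g + d) = Q * 2 ^ d := by rw [hQ, e2]; ring
    rw [g1, g2] at b2
    exact b2
  have hT0 : 0 ≤ T := by positivity
  have hTz : T = 0 := by
    by_contra hne
    have hTpos : 0 < T := lt_of_le_of_ne hT0 (Ne.symm hne)
    have s3 := mul_lt_mul_of_pos_left (pow_bound d hd) hTpos
    have s4 : Q * 2 ^ d ≤ 9 / 4 * T * 2 ^ d := mul_le_mul_of_nonneg_right b3 (by positivity)
    nlinarith
  have hr : r = 0 := by
    have : |r| = 0 := (mul_eq_zero.1 hTz).resolve_right (by positivity)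
    exact abs_eq_zero.1 this
  have hq : q = 0 := by
    have hQ0 : Q ≤ 0 := by rw [hTz] at b3; linarith
    have hQ1 : 0 ≤ Q := by positivity
    have : |q| = 0 := (mul_eq_zero.1 (le_antisymm hQ0 hQ1)).resolve_right (by positivity)
    exact abs_eq_zero.1 this
  refine ⟨?_, hq, hr⟩
  rw [hq, hr] at h1
  linarith

/-- the sign patterns that occur -/
def GoodPattern (n : ℕ) (s : ℕ → Bool) : Prop :=
  ∀ i j m, i < j → j < m → m + 1 < n → ¬ (s i = s m ∧ s j ≠ s m ∧ s (m + 1) = s m)

theorem goodPattern_flip_bound (n : ℕ) (s : ℕ → Bool) (hs : GoodPattern n s) :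
    ∃ S : Finset ℕ, S.card ≤ 5 ∧ ∀ t < n, GoodPattern n (Function.update s t (!s t)) → t ∈ S := by
  have bne : ∀ {a b : Bool}, a ≠ b → (!b) = a := by decide
  have bne' : ∀ {a b c : Bool}, a ≠ b → b ≠ c → a = c := by decide
  by_cases h : ∃ m, m + 1 < n ∧ s m = s (m + 1)
  · -- the last non-change
    obtain ⟨M, ⟨hM, hMe⟩, hmax⟩ : ∃ M, (M + 1 < n ∧ s M = s (M + 1)) ∧
        ∀ m, m + 1 < n → s m = s (m + 1) → m ≤ M := by
      obtain ⟨m₀, h₀⟩ := h
      have hb : m₀ ≤ n := by omega
      refine ⟨Nat.findGreatest (fun m => m + 1 < n ∧ s m = s (m + 1)) n,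
        Nat.findGreatest_spec (P := fun m => m + 1 < n ∧ s m = s (m + 1)) hb h₀,
        fun m h1 h2 => Nat.le_findGreatest (by omega) ⟨h1, h2⟩⟩
    have halt : ∀ m, M < m → m + 1 < n → s m ≠ s (m + 1) := fun m h1 h2 h3 =>
      absurd (hmax m h2 h3) (by omega)
    -- the first index with the same value
    have hex : ∃ p, s p = s M := ⟨M, rfl⟩
    obtain ⟨p, hp, hpmin⟩ : ∃ p, s p = s M ∧ ∀ t < p, s t ≠ s M :=
      ⟨Nat.find hex, Nat.find_spec hex, fun t ht => Nat.find_min hex ht⟩
    have hpM : p ≤ M := by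
      by_contra hcon
      exact hpmin M (by omega) rfl
    -- between `p` and `M` the value is constant
    have hconst : ∀ t, p < t → t < M → s t = s M := by
      intro t h1 h2
      by_contra hne
      exact hs p t M h1 h2 hM ⟨hp, hne, hMe.symm⟩
    -- far beyond `M` nothing may be flipped
    have hfar : ∀ t, M + 4 ≤ t → t < n → ¬ GoodPattern n (Function.update s t (!s t)) := by
      intro t h1 h2 hgood
      obtain ⟨w, rfl⟩ : ∃ w, t = w + 3 := ⟨t - 3, by omega⟩
      refine hgood w (w + 1) (w + 2) (by omega) (by omega) (by omega) ⟨?_, ?_, ?_⟩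
      · rw [Function.update_of_ne (by omega), Function.update_of_ne (by omega)]
        exact bne' (halt w (by omega) (by omega)) (halt (w + 1) (by omega) (by omega))
      · rw [Function.update_of_ne (by omega), Function.update_of_ne (by omega)]
        exact halt (w + 1) (by omega) (by omega)
      · rw [Function.update_self, Function.update_of_ne (by omega)]
        exact bne (halt (w + 2) (by omega) (by omega))
    -- between `p` and `M` nothing may be flipped
    have hmid : ∀ t, p < t → t < M → ¬ GoodPattern n (Function.update s t (!s t)) := by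
      intro t h1 h2 hgood
      refine hgood p t M h1 h2 hM ⟨?_, ?_, ?_⟩
      · rw [Function.update_of_ne (by omega), Function.update_of_ne (by omega)]
        exact hp
      · rw [Function.update_self, Function.update_of_ne (by omega), hconst t h1 h2]
        simp
      · rw [Function.update_of_ne (by omega), Function.update_of_ne (by omega)]
        exact hMe.symm
    by_cases hp0 : p = 0
    · refine ⟨{0, M, M + 1, M + 2, M + 3}, Finset.card_le_five, fun t ht hgood => ?_⟩
      by_contra hnot
      simp only [Finset.mem_insert, Finset.mem_singleton, not_or] at hnot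
      rcases lt_or_ge t M with h1 | h1
      · exact hmid t (by omega) h1 hgood
      · exact hfar t (by omega) ht hgood
    · refine ⟨{p - 1, p, M, M + 1, M + 2}, Finset.card_le_five, fun t ht hgood => ?_⟩
      by_contra hnot
      simp only [Finset.mem_insert, Finset.mem_singleton, not_or] at hnot
      rcases lt_or_ge t (p - 1) with h1 | h1
      · -- flip before the change
        refine hgood t (p - 1) M h1 (by omega) hM ⟨?_, ?_, ?_⟩
        · rw [Function.update_self, Function.update_of_ne (by omega)]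
          exact bne (Ne.symm (hpmin t (by omega)))
        · rw [Function.update_of_ne (by omega), Function.update_of_ne (by omega)]
          exact hpmin (p - 1) (by omega)
        · rw [Function.update_of_ne (by omega), Function.update_of_ne (by omega)]
          exact hMe.symm
      · rcases lt_or_ge t M with h2 | h2
        · exact hmid t (by omega) h2 hgood
        · rcases (by omega : t = M + 3 ∨ M + 4 ≤ t) with rfl | h3
          · -- flip the third position after the last non-change
            have h01 : s (M + 1) ≠ s (M + 2) := halt (M + 1) (by omega) (by omega)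
            have h02 : s (M + 2) ≠ s (M + 3) := halt (M + 2) (by omega) (by omega)
            refine hgood 0 (M + 1) (M + 2) (by omega) (by omega) (by omega) ⟨?_, ?_, ?_⟩
            · rw [Function.update_of_ne (by omega), Function.update_of_ne (by omega)]
              have h00 := hpmin 0 (by omega)
              rw [hMe] at h00
              exact bne' h00 h01
            · rw [Function.update_of_ne (by omega), Function.update_of_ne (by omega)]
              exact h01
            · rw [Function.update_self, Function.update_of_ne (by omega)]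
              exact bne h02
          · exact hfar t h3 ht hgood
  · push Not at h
    refine ⟨{0, 1, 2}, (Finset.card_le_three).trans (by norm_num), fun t ht hgood => ?_⟩
    by_contra hnot
    simp only [Finset.mem_insert, Finset.mem_singleton, not_or] at hnot
    obtain ⟨w, rfl⟩ : ∃ w, t = w + 3 := ⟨t - 3, by omega⟩
    refine hgood w (w + 1) (w + 2) (by omega) (by omega) (by omega) ⟨?_, ?_, ?_⟩
    · rw [Function.update_of_ne (by omega), Function.update_of_ne (by omega)]
      exact bne' (h w (by omega)) (h (w + 1) (by omega))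
    · rw [Function.update_of_ne (by omega), Function.update_of_ne (by omega)]
      exact h (w + 1) (by omega)
    · rw [Function.update_self, Function.update_of_ne (by omega)]
      exact bne (h (w + 2) (by omega))

/-- the normal vectors -/
noncomputable def normalVec (i : ℕ) : E3 := !₂[(1 : ℝ), 2 ^ i, (-8) ^ i]

theorem inner_normalVec (i : ℕ) (z : E3) :
    inner ℝ (normalVec i) z = fam (z 0) (z 1) (z 2) i := by
  rw [PiLp.inner_apply, Fin.sum_univ_three]
  simp [normalVec, fam]

theorem gp_normalVec (s : Finset ℕ) : GP normalVec s := by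
  have key : ∀ i j k : ℕ, i < j → j < k → ∀ z : E3, inner ℝ (normalVec i) z = 0 →
      inner ℝ (normalVec j) z = 0 → inner ℝ (normalVec k) z = 0 → z = 0 := by
    intro i j k hij hjk z h1 h2 h3
    rw [inner_normalVec] at h1 h2 h3
    obtain ⟨e1, e2, e3⟩ := fam_zero hij hjk h1 h2 h3
    ext l
    fin_cases l
    · exact e1
    · exact e2
    · exact e3
  intro i _ j _ k _ hij hik hjk z h1 h2 h3
  rcases lt_or_gt_of_ne hij with a | a <;> rcases lt_or_gt_of_ne hik with b | b <;>
    rcases lt_or_gt_of_ne hjk with c | c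
  · exact key i j k a c z h1 h2 h3
  · exact key i k j b c z h1 h3 h2
  · omega
  · exact key k i j b a z h3 h1 h2
  · exact key j i k a b z h2 h1 h3
  · omega
  · exact key j k i c b z h2 h3 h1
  · exact key k j i c a z h3 h2 h1

theorem goodPattern_of_ne {n : ℕ} {z : E3} (hz : ∀ i < n, inner ℝ (normalVec i) z ≠ 0) :
    GoodPattern n (fun i => decide (0 < inner ℝ (normalVec i) z)) := by
  intro i j m hij hjm hm ⟨h1, h2, h3⟩
  have hz' : ∀ i < n, fam (z 0) (z 1) (z 2) i ≠ 0 := fun i hi => by
    rw [← inner_normalVec]; exact hz i hi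
  simp only [inner_normalVec] at h1 h2 h3
  have n1 := hz' i (by omega)
  have n2 := hz' j (by omega)
  have n3 := hz' m (by omega)
  have n4 := hz' (m + 1) (by omega)
  by_cases hpos : 0 < fam (z 0) (z 1) (z 2) m
  · simp only [hpos, decide_true, decide_eq_true_eq, ne_eq] at h1 h2 h3
    exact fam_pattern hij hjm h1 (lt_of_le_of_ne (not_lt.1 h2) n2) hpos h3
  · simp only [hpos, decide_false, decide_eq_false_iff_not, ne_eq] at h1 h2 h3
    rw [not_not] at h2
    have key := @fam_pattern (-(z 0)) (-(z 1)) (-(z 2)) i j m hij hjm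
    simp only [fam_neg] at key
    exact key (neg_pos.2 (lt_of_le_of_ne (not_lt.1 h1) n1)) (neg_neg_iff_pos.2 h2)
      (neg_pos.2 (lt_of_le_of_ne (not_lt.1 hpos) n3))
      (neg_pos.2 (lt_of_le_of_ne (not_lt.1 h3) n4))

/-- every cell has at most five sides -/
theorem sideSet_normalVec_le (n : ℕ) (x : E3)
    (hx : ∀ i ∈ Finset.range n, inner ℝ (normalVec i) x ≠ 0) :
    (sideSet normalVec (Finset.range n) x).encard ≤ 5 := by
  have hx' : ∀ i < n, inner ℝ (normalVec i) x ≠ 0 := fun i hi => hx i (Finset.mem_range.2 hi)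
  obtain ⟨S, hS5, hS⟩ := goodPattern_flip_bound n _ (goodPattern_of_ne hx')
  have hsub : sideSet normalVec (Finset.range n) x ⊆ (S : Set ℕ) := by
    rintro t ⟨ht, z, hz, hz'⟩
    have htn : t < n := Finset.mem_range.1 ht
    apply hS t htn
    -- move across the side
    obtain ⟨ε, hε, hpert⟩ := exists_pert (Finset.range n)
      (fun j => inner ℝ (normalVec j) z * inner ℝ (normalVec j) x)
      (fun j => inner ℝ (normalVec j) x * inner ℝ (normalVec j) x) (fun j => j ≠ t)
      (fun j hj hjt => hz' j hj hjt)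
    set y := z + (-ε) • x with hy
    have hval : ∀ j, inner ℝ (normalVec j) y * inner ℝ (normalVec j) x =
        inner ℝ (normalVec j) z * inner ℝ (normalVec j) x +
          (-ε) * (inner ℝ (normalVec j) x * inner ℝ (normalVec j) x) := by
      intro j
      rw [hy, inner_add_right, inner_smul_right]; ring
    have hyj : ∀ j < n, j ≠ t → 0 < inner ℝ (normalVec j) y * inner ℝ (normalVec j) x := by
      intro j hj hjt
      rw [hval]
      exact hpert (-ε) (by rw [abs_neg]; exact (abs_of_pos hε).le) j (Finset.mem_range.2 hj) hjt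
    have hyt : inner ℝ (normalVec t) y * inner ℝ (normalVec t) x < 0 := by
      rw [hval, hz, zero_mul, zero_add]
      have := mul_pos hε (mul_self_pos.2 (hx' t htn))
      linarith
    have hyne : ∀ j < n, inner ℝ (normalVec j) y ≠ 0 := by
      intro j hj h0
      by_cases hjt : j = t
      · subst hjt
        rw [h0] at hyt; simp at hyt
      · have := hyj j hj hjt
        rw [h0] at this; simp at this
    have hgood := goodPattern_of_ne hyne
    -- the two sign patterns agree
    intro i j m hij hjm hm hcon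
    have hupd : ∀ l < n, Function.update (fun i => decide (0 < inner ℝ (normalVec i) x)) t
        (!decide (0 < inner ℝ (normalVec t) x)) l = decide (0 < inner ℝ (normalVec l) y) := by
      intro l hl
      by_cases hlt : l = t
      · subst hlt
        rw [Function.update_self]
        rcases lt_or_gt_of_ne (hx' l hl) with h | h
        · have : 0 < inner ℝ (normalVec l) y := by
            by_contra hcon
            push Not at hcon
            nlinarith
          simp [this, h.le]
        · have : ¬ 0 < inner ℝ (normalVec l) y := by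
            intro hcon
            nlinarith
          simp [this, h]
      · rw [Function.update_of_ne hlt]
        have := hyj l hl hlt
        rcases lt_or_gt_of_ne (hx' l hl) with h | h
        · have h2 : ¬ 0 < inner ℝ (normalVec l) y := by
            intro hcon
            nlinarith
          have h3 : ¬ 0 < inner ℝ (normalVec l) x := not_lt.2 h.le
          simp only [h2, h3]
        · have h2 : 0 < inner ℝ (normalVec l) y := by
            by_contra hcon
            push Not at hcon
            nlinarith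
          have h3 : 0 < inner ℝ (normalVec l) x := h
          simp only [h2, h3]
    rw [hupd i (by omega), hupd j (by omega), hupd m (by omega), hupd (m + 1) hm] at hcon
    exact hgood i j m hij hjm hm hcon
  calc (sideSet normalVec (Finset.range n) x).encard ≤ (S : Set ℕ).encard :=
        Set.encard_le_encard hsub
    _ = S.card := Set.encard_coe_eq_coe_finsetCard S
    _ ≤ 5 := by exact_mod_cast hS5

end Pool.Agent.Lib.MP_2b14c6_co
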