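import Pool.Agent.Lib.MP_2b14c6_co.Cut

/-!
# Five planes in general position bound a pentagonal cone
-/

set_option autoImplicit false

namespace Pool.Agent.Lib.MP_2b14c6_co

/-- values of the five forms in the normalised situation -/
def fiveVal (a b c : ℝ) (p : ℝ × ℝ × ℝ) : Fin 5 → ℝ :=
  ![p.1, p.2.1, p.2.2, p.1 + p.2.1 + p.2.2, a * p.1 + b * p.2.1 + c * p.2.2]

/-- there is a pentagonal cone -/
def HasPent (a b c : ℝ) : Prop :=
  ∃ s : Fin 5 → ℝ, ∀ i, ∃ p, fiveVal a b c p i = 0 ∧ ∀ j, j ≠ i → 0 < fiveVal a b c p j * s j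

theorem HasPent.swap12 {a b c : ℝ} (h : HasPent a b c) : HasPent b a c := by
  obtain ⟨s, hs⟩ := h
  have key : ∀ p : ℝ × ℝ × ℝ, ∀ j, fiveVal b a c (p.2.1, p.1, p.2.2) j =
      fiveVal a b c p (Equiv.swap (0 : Fin 5) 1 j) := by
    intro p j
    fin_cases j <;> simp [fiveVal, Equiv.swap_apply_def] <;> ring
  refine ⟨fun j => s (Equiv.swap (0 : Fin 5) 1 j), fun i => ?_⟩
  obtain ⟨p, hp, hp'⟩ := hs (Equiv.swap (0 : Fin 5) 1 i)
  refine ⟨(p.2.1, p.1, p.2.2), by rw [key]; exact hp, fun j hj => ?_⟩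
  rw [key]
  exact hp' _ fun h => hj ((Equiv.swap (0 : Fin 5) 1).injective h)

theorem HasPent.swap23 {a b c : ℝ} (h : HasPent a b c) : HasPent a c b := by
  obtain ⟨s, hs⟩ := h
  have key : ∀ p : ℝ × ℝ × ℝ, ∀ j, fiveVal a c b (p.1, p.2.2, p.2.1) j =
      fiveVal a b c p (Equiv.swap (1 : Fin 5) 2 j) := by
    intro p j
    fin_cases j <;> simp [fiveVal, Equiv.swap_apply_def] <;> ring
  refine ⟨fun j => s (Equiv.swap (1 : Fin 5) 2 j), fun i => ?_⟩
  obtain ⟨p, hp, hp'⟩ := hs (Equiv.swap (1 : Fin 5) 2 i)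
  refine ⟨(p.1, p.2.2, p.2.1), by rw [key]; exact hp, fun j hj => ?_⟩
  rw [key]
  exact hp' _ fun h => hj ((Equiv.swap (1 : Fin 5) 2).injective h)

theorem HasPent.neg {a b c : ℝ} (h : HasPent a b c) : HasPent (-a) (-b) (-c) := by
  obtain ⟨s, hs⟩ := h
  have key : ∀ p : ℝ × ℝ × ℝ, ∀ j, fiveVal (-a) (-b) (-c) p j =
      (![1, 1, 1, 1, -1] : Fin 5 → ℝ) j * fiveVal a b c p j := by
    intro p j
    fin_cases j <;> simp [fiveVal] <;> ring
  have hsq : ∀ j, (![1, 1, 1, 1, -1] : Fin 5 → ℝ) j * (![1, 1, 1, 1, -1] : Fin 5 → ℝ) j = 1 := by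
    intro j
    fin_cases j <;> simp
  refine ⟨fun j => (![1, 1, 1, 1, -1] : Fin 5 → ℝ) j * s j, fun i => ?_⟩
  obtain ⟨p, hp, hp'⟩ := hs i
  refine ⟨p, by rw [key, hp, mul_zero], fun j hj => ?_⟩
  rw [key]
  have := hp' j hj
  have h2 := hsq j
  calc 0 < fiveVal a b c p j * s j := this
    _ = ((![1, 1, 1, 1, -1] : Fin 5 → ℝ) j * (![1, 1, 1, 1, -1] : Fin 5 → ℝ) j) *
        (fiveVal a b c p j * s j) := by rw [h2, one_mul]
    _ = _ := by ring

theorem hasPent_pos {a b c : ℝ} (ha : 0 < a) (hab : a < b) (hbc : b < c) : HasPent a b c := by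
  have hb : 0 < b := ha.trans hab
  have hc : 0 < c := hb.trans hbc
  have h1 : 0 < b - a := by linarith
  have h2 : 0 < c - b := by linarith
  have h3 : 0 < c - a := by linarith
  refine ⟨![1, -1, 1, 1, 1], fun i => ?_⟩
  fin_cases i
  · refine ⟨(0, -1, 2), by simp [fiveVal], fun j hj => ?_⟩
    fin_cases j <;> simp [fiveVal] at hj ⊢ <;> linarith
  · refine ⟨(1, 0, 1), by simp [fiveVal], fun j hj => ?_⟩
    fin_cases j <;> simp [fiveVal] at hj ⊢ <;> linarith
  · refine ⟨(a + b, -a, 0), by simp [fiveVal], fun j hj => ?_⟩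
    fin_cases j <;> simp [fiveVal] at hj ⊢ <;> nlinarith
  · refine ⟨(c - b, -2 * (c - a), (c - a) + (b - a)), by simp [fiveVal]; ring, fun j hj => ?_⟩
    fin_cases j <;> simp [fiveVal] at hj ⊢ <;> nlinarith [mul_pos h3 h2]
  · refine ⟨(b * (c - a) + a * (c - b), -2 * a * (c - a), a * (b - a)),
      by simp [fiveVal]; ring, fun j hj => ?_⟩
    have e1 := mul_pos hb h3
    have e2 := mul_pos ha h2
    have e3 := mul_pos ha h3
    have e4 := mul_pos ha h1
    have e5 := mul_pos h1 h3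
    fin_cases j <;> simp [fiveVal] at hj ⊢ <;> nlinarith

theorem hasPent_neg {a b c : ℝ} (ha : a < 0) (hb : 0 < b) (hbc : b < c) : HasPent a b c := by
  have hc : 0 < c := hb.trans hbc
  have h2 : 0 < c - b := by linarith
  have h3 : 0 < c - a := by linarith
  refine ⟨![1, 1, -1, 1, -1], fun i => ?_⟩
  fin_cases i
  · refine ⟨(0, b + c, -2 * b), by simp [fiveVal], fun j hj => ?_⟩
    fin_cases j <;> simp [fiveVal] at hj ⊢ <;> nlinarith [mul_pos hb h2]
  · refine ⟨(2, 0, -1), by simp [fiveVal], fun j hj => ?_⟩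
    fin_cases j <;> simp [fiveVal] at hj ⊢ <;> linarith
  · refine ⟨(2 * b, -a, 0), by simp [fiveVal], fun j hj => ?_⟩
    fin_cases j <;> simp [fiveVal] at hj ⊢ <;> nlinarith [mul_pos (neg_pos.2 ha) hb]
  · refine ⟨(1, 1, -2), by simp [fiveVal]; norm_num, fun j hj => ?_⟩
    fin_cases j <;> simp [fiveVal] at hj ⊢ <;> linarith
  · refine ⟨(b, c - a, -b), by simp [fiveVal]; ring, fun j hj => ?_⟩
    fin_cases j <;> simp [fiveVal] at hj ⊢ <;> linarith

theorem hasPent_sorted {a b c : ℝ} (ha : a ≠ 0) (hb : b ≠ 0) (hc : c ≠ 0) (hab : a < b)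
    (hbc : b < c) : HasPent a b c := by
  rcases lt_or_gt_of_ne ha with ha | ha
  · rcases lt_or_gt_of_ne hb with hb | hb
    · rcases lt_or_gt_of_ne hc with hc | hc
      · -- all negative
        have h := hasPent_pos (a := -c) (b := -b) (c := -a) (by linarith) (by linarith)
          (by linarith)
        have h2 := h.swap12.swap23.swap12.neg
        simpa using h2
      · have h := hasPent_neg (a := -c) (b := -b) (c := -a) (by linarith) (by linarith)
          (by linarith)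
        have h2 := h.swap12.swap23.swap12.neg
        simpa using h2
    · exact hasPent_neg ha hb hbc
  · exact hasPent_pos ha hab hbc

theorem hasPent {a b c : ℝ} (ha : a ≠ 0) (hb : b ≠ 0) (hc : c ≠ 0) (hab : a ≠ b)
    (hac : a ≠ c) (hbc : b ≠ c) : HasPent a b c := by
  rcases lt_or_gt_of_ne hab with h1 | h1 <;> rcases lt_or_gt_of_ne hac with h2 | h2 <;>
    rcases lt_or_gt_of_ne hbc with h3 | h3
  · exact hasPent_sorted ha hb hc h1 h3
  · exact (hasPent_sorted ha hc hb h2 h3).swap23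
  · exact absurd (h1.trans h3) (not_lt.2 h2.le)
  · -- c < a < b
    exact (hasPent_sorted hc ha hb h2 h1).swap12.swap23
  · -- b < a < c
    exact (hasPent_sorted hb ha hc h1 h2).swap12
  · exact absurd (h3.trans h1) (not_lt.2 h2.le)
  · -- b < c < a
    exact (hasPent_sorted hb hc ha h3 h2).swap23.swap12
  · -- c < b < a
    exact (hasPent_sorted hc hb ha h3 h1).swap12.swap23.swap12

end Pool.Agent.Lib.MP_2b14c6_co
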