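import Mathlib

/-!
# Central arrangements of planes in general position
-/

set_option autoImplicit false

namespace Pool.Agent.Lib.MP_2b14c6_co

/-- Euclidean 3-space -/
abbrev E3 : Type := EuclideanSpace ℝ (Fin 3)

variable {ι : Type*}

/-- general position: three distinct planes meet only in the origin -/
def GP (u : ι → E3) (s : Finset ι) : Prop :=
  ∀ i ∈ s, ∀ j ∈ s, ∀ k ∈ s, i ≠ j → i ≠ k → j ≠ k → ∀ z : E3,
    inner ℝ (u i) z = 0 → inner ℝ (u j) z = 0 → inner ℝ (u k) z = 0 → z = 0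

/-- the sides of the cell of `x` -/
def sideSet (u : ι → E3) (s : Finset ι) (x : E3) : Set ι :=
  {i | i ∈ s ∧ ∃ z : E3, inner ℝ (u i) z = 0 ∧
    ∀ j ∈ s, j ≠ i → 0 < inner ℝ (u j) z * inner ℝ (u j) x}

theorem GP.mono {u : ι → E3} {s t : Finset ι} (h : GP u s) (hts : t ⊆ s) : GP u t :=
  fun i hi j hj k hk => h i (hts hi) j (hts hj) k (hts hk)

/-- values on three planes may be prescribed -/
theorem GP.exists_eval {u : ι → E3} {s : Finset ι} (h : GP u s) {i j k : ι} (hi : i ∈ s)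
    (hj : j ∈ s) (hk : k ∈ s) (hij : i ≠ j) (hik : i ≠ k) (hjk : j ≠ k) (a b c : ℝ) :
    ∃ v : E3, inner ℝ (u i) v = a ∧ inner ℝ (u j) v = b ∧ inner ℝ (u k) v = c := by
  let L : E3 →ₗ[ℝ] (Fin 3 → ℝ) := LinearMap.pi
    ![(innerSL ℝ (u i)).toLinearMap, (innerSL ℝ (u j)).toLinearMap, (innerSL ℝ (u k)).toLinearMap]
  have hL : Function.Injective L := by
    rw [injective_iff_map_eq_zero]
    intro z hz
    have h0 := congrFun hz 0
    have h1 := congrFun hz 1
    have h2 := congrFun hz 2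
    simp [L] at h0 h1 h2
    exact h i hi j hj k hk hij hik hjk z h0 h1 h2
  have hS : Function.Surjective L := by
    rw [← LinearMap.injective_iff_surjective_of_finrank_eq_finrank (by simp)]
    exact hL
  obtain ⟨v, hv⟩ := hS ![a, b, c]
  have h0 := congrFun hv 0
  have h1 := congrFun hv 1
  have h2 := congrFun hv 2
  simp [L] at h0 h1 h2
  exact ⟨v, h0, h1, h2⟩

theorem exists_third {s : Finset ι} (hs : 3 ≤ s.card) (i j : ι) : ∃ k ∈ s, k ≠ i ∧ k ≠ j := by
  classical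
  have : 0 < ((s.erase i).erase j).card := by
    have h1 := Finset.pred_card_le_card_erase (s := s) (a := i)
    have h2 := Finset.pred_card_le_card_erase (s := s.erase i) (a := j)
    omega
  obtain ⟨k, hk⟩ := Finset.card_pos.1 this
  simp only [Finset.mem_erase] at hk
  exact ⟨k, hk.2.2, hk.2.1, hk.1⟩

theorem GP.exists_eval₂ {u : ι → E3} {s : Finset ι} (h : GP u s) (hs : 3 ≤ s.card) {i j : ι}
    (hi : i ∈ s) (hj : j ∈ s) (hij : i ≠ j) (a b : ℝ) :
    ∃ v : E3, inner ℝ (u i) v = a ∧ inner ℝ (u j) v = b := by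
  obtain ⟨k, hk, hki, hkj⟩ := exists_third hs i j
  obtain ⟨v, h1, h2, -⟩ := h.exists_eval hi hj hk hij hki.symm hkj.symm a b 0
  exact ⟨v, h1, h2⟩

theorem GP.exists_eval₁ {u : ι → E3} {s : Finset ι} (h : GP u s) (hs : 3 ≤ s.card) {i : ι}
    (hi : i ∈ s) (a : ℝ) : ∃ v : E3, inner ℝ (u i) v = a := by
  obtain ⟨j, hj, hji, -⟩ := exists_third hs i i
  obtain ⟨v, h1, -⟩ := h.exists_eval₂ hs hi hj hji.symm a 0
  exact ⟨v, h1⟩

/-- a vector on which all forms of the arrangement vanish is zero -/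
theorem GP.eq_zero {u : ι → E3} {s : Finset ι} (h : GP u s) (hs : 3 ≤ s.card) {z : E3}
    (hz : ∀ i ∈ s, inner ℝ (u i) z = 0) : z = 0 := by
  obtain ⟨i, hi⟩ : ∃ i, i ∈ s := Finset.card_pos.1 (by omega)
  obtain ⟨j, hj, hji, -⟩ := exists_third hs i i
  obtain ⟨k, hk, hki, hkj⟩ := exists_third hs i j
  exact h i hi j hj k hk hji.symm hki.symm hkj.symm z (hz i hi) (hz j hj) (hz k hk)

/-- perturbation -/
theorem exists_pert (s : Finset ι) (a b : ι → ℝ) (P : ι → Prop)
    (h : ∀ j ∈ s, P j → 0 < a j) :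
    ∃ ε : ℝ, 0 < ε ∧ ∀ δ : ℝ, |δ| ≤ ε → ∀ j ∈ s, P j → 0 < a j + δ * b j := by
  have key : ∀ᶠ δ in nhds (0 : ℝ), ∀ j ∈ s, P j → 0 < a j + δ * b j := by
    rw [Filter.eventually_all_finset]
    intro j hj
    by_cases hP : P j
    · have hc : ContinuousAt (fun δ : ℝ => a j + δ * b j) 0 := by fun_prop
      have h0 : (0 : ℝ) < a j + 0 * b j := by simpa using h j hj hP
      have := hc.eventually_mem (Ioi_mem_nhds h0)
      exact this.mono fun δ hδ _ => hδ
    · exact Filter.Eventually.of_forall fun _ h => absurd h hP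
  obtain ⟨ε, hε, hb⟩ := Metric.eventually_nhds_iff.1 key
  refine ⟨ε / 2, by positivity, fun δ hδ => hb ?_⟩
  rw [Real.dist_eq, sub_zero]
  linarith

end Pool.Agent.Lib.MP_2b14c6_co
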