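import Pool.Agent.Lib.MP_2b14c6_co.Five

/-!
# Every simple arrangement of at least five planes has a cell with at least five sides
-/

set_option autoImplicit false

namespace Pool.Agent.Lib.MP_2b14c6_co

theorem mul_pos_of_mul_pos {a b c : ℝ} (h1 : 0 < a * c) (h2 : 0 < b * c) : 0 < a * b := by
  have h3 : 0 < (a * b) * (c * c) := by
    have := mul_pos h1 h2
    nlinarith
  have h4 : c ≠ 0 := by
    rintro rfl
    simp at h1
  exact (mul_pos_iff_of_pos_right (mul_self_pos.2 h4)).1 h3

/-- the pentagonal cone for five planes indexed by `Fin 5` -/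
theorem exists_pent (U : Fin 5 → E3) (h : GP U Finset.univ) :
    ∃ x : E3, ∀ i, ∃ z : E3, inner ℝ (U i) z = 0 ∧
      ∀ j, j ≠ i → 0 < inner ℝ (U j) z * inner ℝ (U j) x := by
  have hm : ∀ i : Fin 5, i ∈ (Finset.univ : Finset (Fin 5)) := fun i => Finset.mem_univ i
  obtain ⟨v0, h00, h01, h02⟩ := h.exists_eval (hm 0) (hm 1) (hm 2) (by decide) (by decide)
    (by decide) 1 0 0
  obtain ⟨v1, h10, h11, h12⟩ := h.exists_eval (hm 0) (hm 1) (hm 2) (by decide) (by decide)
    (by decide) 0 1 0
  obtain ⟨v2, h20, h21, h22⟩ := h.exists_eval (hm 0) (hm 1) (hm 2) (by decide) (by decide)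
    (by decide) 0 0 1
  set α := inner ℝ (U 3) v0 with hα
  set β := inner ℝ (U 3) v1 with hβ
  set γ := inner ℝ (U 3) v2 with hγ
  set α' := inner ℝ (U 4) v0 with hα'
  set β' := inner ℝ (U 4) v1 with hβ'
  set γ' := inner ℝ (U 4) v2 with hγ'
  have gp : ∀ i j k : Fin 5, i ≠ j → i ≠ k → j ≠ k → ∀ z : E3, inner ℝ (U i) z = 0 →
      inner ℝ (U j) z = 0 → inner ℝ (U k) z = 0 → z = 0 := fun i j k h1 h2 h3 z =>
    h i (hm i) j (hm j) k (hm k) h1 h2 h3 z
  have hα0 : α ≠ 0 := fun h0 => by
    have := gp 1 2 3 (by decide) (by decide) (by decide) v0 h01 h02 h0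
    rw [this] at h00; simp at h00
  have hβ0 : β ≠ 0 := fun h0 => by
    have := gp 0 2 3 (by decide) (by decide) (by decide) v1 h10 h12 h0
    rw [this] at h11; simp at h11
  have hγ0 : γ ≠ 0 := fun h0 => by
    have := gp 0 1 3 (by decide) (by decide) (by decide) v2 h20 h21 h0
    rw [this] at h22; simp at h22
  have hα'0 : α' ≠ 0 := fun h0 => by
    have := gp 1 2 4 (by decide) (by decide) (by decide) v0 h01 h02 h0
    rw [this] at h00; simp at h00
  have hβ'0 : β' ≠ 0 := fun h0 => by
    have := gp 0 2 4 (by decide) (by decide) (by decide) v1 h10 h12 h0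
    rw [this] at h11; simp at h11
  have hγ'0 : γ' ≠ 0 := fun h0 => by
    have := gp 0 1 4 (by decide) (by decide) (by decide) v2 h20 h21 h0
    rw [this] at h22; simp at h22
  have hab : α' / α ≠ β' / β := by
    intro he
    rw [div_eq_div_iff hα0 hβ0] at he
    have hz := gp 2 3 4 (by decide) (by decide) (by decide) (β • v0 - α • v1)
      (by rw [inner_sub_right, inner_smul_right, inner_smul_right, h02, h12]; simp)
      (by rw [inner_sub_right, inner_smul_right, inner_smul_right, ← hα, ← hβ]; ring)
      (by rw [inner_sub_right, inner_smul_right, inner_smul_right, ← hα', ← hβ']; linarith)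
    have : inner ℝ (U 0) (β • v0 - α • v1) = β := by
      rw [inner_sub_right, inner_smul_right, inner_smul_right, h00, h10]; ring
    rw [hz, inner_zero_right] at this
    exact hβ0 this.symm
  have hac : α' / α ≠ γ' / γ := by
    intro he
    rw [div_eq_div_iff hα0 hγ0] at he
    have hz := gp 1 3 4 (by decide) (by decide) (by decide) (γ • v0 - α • v2)
      (by rw [inner_sub_right, inner_smul_right, inner_smul_right, h01, h21]; simp)
      (by rw [inner_sub_right, inner_smul_right, inner_smul_right, ← hα, ← hγ]; ring)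
      (by rw [inner_sub_right, inner_smul_right, inner_smul_right, ← hα', ← hγ']; linarith)
    have : inner ℝ (U 0) (γ • v0 - α • v2) = γ := by
      rw [inner_sub_right, inner_smul_right, inner_smul_right, h00, h20]; ring
    rw [hz, inner_zero_right] at this
    exact hγ0 this.symm
  have hbc : β' / β ≠ γ' / γ := by
    intro he
    rw [div_eq_div_iff hβ0 hγ0] at he
    have hz := gp 0 3 4 (by decide) (by decide) (by decide) (γ • v1 - β • v2)
      (by rw [inner_sub_right, inner_smul_right, inner_smul_right, h10, h20]; simp)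
      (by rw [inner_sub_right, inner_smul_right, inner_smul_right, ← hβ, ← hγ]; ring)
      (by rw [inner_sub_right, inner_smul_right, inner_smul_right, ← hβ', ← hγ']; linarith)
    have : inner ℝ (U 1) (γ • v1 - β • v2) = γ := by
      rw [inner_sub_right, inner_smul_right, inner_smul_right, h11, h21]; ring
    rw [hz, inner_zero_right] at this
    exact hγ0 this.symm
  obtain ⟨s, hs⟩ := hasPent (div_ne_zero hα'0 hα0) (div_ne_zero hβ'0 hβ0)
    (div_ne_zero hγ'0 hγ0) hab hac hbc
  -- the point with given coordinates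
  let Z : ℝ × ℝ × ℝ → E3 := fun p => (p.1 / α) • v0 + (p.2.1 / β) • v1 + (p.2.2 / γ) • v2
  let m : Fin 5 → ℝ := ![α, β, γ, 1, 1]
  have hm0 : ∀ j, m j ≠ 0 := by
    intro j
    fin_cases j <;> simp [m, hα0, hβ0, hγ0]
  have hZ : ∀ p j, m j * inner ℝ (U j) (Z p) = fiveVal (α' / α) (β' / β) (γ' / γ) p j := by
    intro p j
    have hexp : ∀ w : E3, inner ℝ w (Z p) = (p.1 / α) * inner ℝ w v0 +
        (p.2.1 / β) * inner ℝ w v1 + (p.2.2 / γ) * inner ℝ w v2 := by
      intro w
      simp only [Z, inner_add_right, inner_smul_right]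
    rw [hexp]
    fin_cases j
    · simp only [m, fiveVal, Fin.zero_eta, Matrix.cons_val_zero, h00, h10, h20]
      field_simp
      ring
    · simp only [m, fiveVal, Fin.mk_one, Matrix.cons_val_one, Matrix.cons_val_zero, h01, h11, h21]
      field_simp
      ring
    · show γ * ((p.1 / α) * inner ℝ (U 2) v0 + (p.2.1 / β) * inner ℝ (U 2) v1 +
        (p.2.2 / γ) * inner ℝ (U 2) v2) = p.2.2
      rw [h02, h12, h22]
      field_simp
      ring
    · show 1 * ((p.1 / α) * α + (p.2.1 / β) * β + (p.2.2 / γ) * γ) = p.1 + p.2.1 + p.2.2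
      field_simp
    · show 1 * ((p.1 / α) * α' + (p.2.1 / β) * β' + (p.2.2 / γ) * γ') =
        α' / α * p.1 + β' / β * p.2.1 + γ' / γ * p.2.2
      ring
  choose p hp hp' using hs
  have hzero : ∀ i, inner ℝ (U i) (Z (p i)) = 0 := by
    intro i
    have := hZ (p i) i
    rw [hp i] at this
    exact (mul_eq_zero.1 this).resolve_left (hm0 i)
  have hpos : ∀ i j, j ≠ i → 0 < inner ℝ (U j) (Z (p i)) * (m j * s j) := by
    intro i j hj
    have := hp' i j hj
    rw [← hZ (p i) j] at this
    linarith
  have hx : ∀ j, 0 < inner ℝ (U j) (Z (p 0) + Z (p 1)) * (m j * s j) := by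
    intro j
    rw [inner_add_right, add_mul]
    by_cases hj : j = 0
    · have h1 := hpos 1 j (by rw [hj]; decide)
      have h0 := hzero 0
      rw [hj] at h1 ⊢
      rw [h0, zero_mul, zero_add]
      exact h1
    · by_cases hj1 : j = 1
      · have h1 := hpos 0 j hj
        have h0 := hzero 1
        rw [hj1] at h1 ⊢
        rw [h0, zero_mul, add_zero]
        exact h1
      · exact add_pos (hpos 0 j hj) (hpos 1 j hj1)
  exact ⟨Z (p 0) + Z (p 1), fun i => ⟨Z (p i), hzero i, fun j hj =>
    mul_pos_of_mul_pos (hpos i j hj) (hx j)⟩⟩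

variable {ι : Type*}

theorem exists_five {u : ι → E3} {s : Finset ι} (h : GP u s) (hs : s.card = 5) :
    ∃ x : E3, (∀ i ∈ s, inner ℝ (u i) x ≠ 0) ∧ 5 ≤ (sideSet u s x).ncard := by
  classical
  let e : Fin 5 ≃ s := (Fintype.equivFinOfCardEq (by simpa using hs)).symm
  obtain ⟨x, hx⟩ := exists_pent (fun i => u (e i)) (by
    intro i _ j _ k _ hij hik hjk z h1 h2 h3
    exact h _ (e i).2 _ (e j).2 _ (e k).2 (fun h => hij (e.injective (Subtype.ext h)))
      (fun h => hik (e.injective (Subtype.ext h))) (fun h => hjk (e.injective (Subtype.ext h)))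
      z h1 h2 h3)
  have hall : ∀ i ∈ s, i ∈ sideSet u s x := by
    intro i hi
    obtain ⟨z, hz, hz'⟩ := hx (e.symm ⟨i, hi⟩)
    simp only [Equiv.apply_symm_apply] at hz
    refine ⟨hi, z, hz, fun j hj hji => ?_⟩
    have := hz' (e.symm ⟨j, hj⟩) (fun h => hji (congrArg Subtype.val (e.symm.injective h)))
    simpa using this
  have heq : sideSet u s x = (s : Set ι) := by
    ext i
    exact ⟨fun h => h.1, fun h => hall i h⟩
  refine ⟨x, fun i hi => ?_, ?_⟩
  · -- some other side point shows that the value is nonzero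
    obtain ⟨j, hj, hji, -⟩ := exists_third (by omega : 3 ≤ s.card) i i
    obtain ⟨-, z, hz, hz'⟩ := hall j hj
    intro h0
    have := hz' i hi hji.symm
    rw [h0] at this; simp at this
  · rw [heq, Set.ncard_coe_finset, hs]

/-- Every arrangement of at least five planes in general position has a cell with at least
five sides. -/
theorem exists_big_cell {u : ι → E3} {s : Finset ι} (h : GP u s) (hs : 5 ≤ s.card) :
    ∃ x : E3, (∀ i ∈ s, inner ℝ (u i) x ≠ 0) ∧ 5 ≤ (sideSet u s x).ncard := by
  classical
  obtain ⟨t, hts, ht⟩ := Finset.exists_subset_card_eq hs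
  -- add the remaining elements one by one
  have key : ∀ r : Finset ι, Disjoint t r → t ∪ r ⊆ s →
      ∃ x : E3, (∀ i ∈ t ∪ r, inner ℝ (u i) x ≠ 0) ∧ 5 ≤ (sideSet u (t ∪ r) x).ncard := by
    intro r
    induction r using Finset.induction_on with
    | empty =>
      intro _ hsub
      rw [Finset.union_empty] at hsub ⊢
      exact exists_five (h.mono hsub) ht
    | insert k r hkr ih =>
      intro hdis hsub
      rw [Finset.disjoint_insert_right] at hdis
      have hsub' : t ∪ r ⊆ s := fun i hi => hsub (by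
        rcases Finset.mem_union.1 hi with hi | hi
        · exact Finset.mem_union_left _ hi
        · exact Finset.mem_union_right _ (Finset.mem_insert_of_mem hi))
      obtain ⟨x, hx, h5⟩ := ih hdis.2 hsub'
      rw [Finset.union_insert] at hsub ⊢
      have hk : k ∉ t ∪ r := by
        rw [Finset.mem_union, not_or]
        exact ⟨hdis.1, hkr⟩
      refine exists_big_side_insert hk (h.mono hsub) ?_ hx h5
      have := Finset.card_le_card (Finset.subset_union_left (s₁ := t) (s₂ := r))
      omega
  obtain ⟨x, hx⟩ := key (s \ t) Finset.disjoint_sdiff (by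
    rw [Finset.union_sdiff_of_subset hts])
  rw [Finset.union_sdiff_of_subset hts] at hx
  exact ⟨x, hx⟩

end Pool.Agent.Lib.MP_2b14c6_co
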