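import Pool.Agent.Lib.MP_2b14c6_co.Topo
import Pool.Agent.Lib.MP_2b14c6_co.Family

/-!
# The largest number of sides that can be guaranteed is five
-/

set_option autoImplicit false

namespace Pool.Agent.Lib.MP_2b14c6_co

variable {ι : Type*}

theorem sideSet_smul (u : ι → E3) (s : Finset ι) (x : E3) {c : ℝ} (hc : 0 < c) :
    sideSet u s (c • x) = sideSet u s x := by
  ext i
  simp only [sideSet]
  constructor
  · rintro ⟨hi, z, hz, h⟩
    refine ⟨hi, z, hz, fun j hj hji => ?_⟩
    have := h j hj hji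
    rw [inner_smul_right] at this
    have h2 : 0 < c * (inner ℝ (u j) z * inner ℝ (u j) x) := by nlinarith
    exact (mul_pos_iff_of_pos_left hc).1 h2
  · rintro ⟨hi, z, hz, h⟩
    refine ⟨hi, z, hz, fun j hj hji => ?_⟩
    have := mul_pos hc (h j hj hji)
    rw [inner_smul_right]
    nlinarith

theorem lower_bound {n : ℕ} (hn : 5 ≤ n) (A : Finset (Set S2)) (hA : A.card = n)
    (hs : IsSimpleArrangement A) : ∃ F, IsFace A F ∧ ((5 : ℕ) : ℕ∞) ≤ numSides A F := by
  classical
  obtain ⟨hgc, hsimple⟩ := hs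
  choose! u hu0 hu using hgc
  have himg : A.image (fun C => circ (u C)) = A := by
    have : A.image (fun C => circ (u C)) = A.image id := by
      apply Finset.image_congr
      intro C hC
      exact (hu C hC).symm
    rw [this, Finset.image_id]
  have hGP : GP u A := by
    intro C₁ h₁ C₂ h₂ C₃ h₃ h12 h13 h23 z hz1 hz2 hz3
    by_contra hz
    refine hsimple C₁ h₁ C₂ h₂ C₃ h₃ h12 h13 h23 (nrm z hz) ⟨?_, ?_, ?_⟩
    · rw [hu C₁ h₁]
      show inner ℝ (u C₁) ((nrm z hz : S2) : E3) = 0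
      rw [inner_nrm, hz1, mul_zero]
    · rw [hu C₂ h₂]
      show inner ℝ (u C₂) ((nrm z hz : S2) : E3) = 0
      rw [inner_nrm, hz2, mul_zero]
    · rw [hu C₃ h₃]
      show inner ℝ (u C₃) ((nrm z hz : S2) : E3) = 0
      rw [inner_nrm, hz3, mul_zero]
  have hcard : 5 ≤ A.card := by omega
  obtain ⟨x, hx, h5⟩ := exists_big_cell hGP hcard
  have hx0 : x ≠ 0 := by
    rintro rfl
    obtain ⟨C, hC⟩ := Finset.card_pos.1 (by omega : 0 < A.card)
    exact hx C hC (inner_zero_right _)
  have hy : ∀ C ∈ A, inner ℝ (u C) ((nrm x hx0 : S2) : E3) ≠ 0 := fun C hC => by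
    rw [inner_nrm]
    exact mul_ne_zero (norm_inv_pos hx0).ne' (hx C hC)
  have hnum := numSides_eq hGP (by omega) hy
  rw [himg, coe_nrm, sideSet_smul u A x (norm_inv_pos hx0)] at hnum
  refine ⟨_, ⟨nrm x hx0, ?_, rfl⟩, ?_⟩
  · rw [← himg, mem_complementOf]
    exact hy
  · rw [hnum, ← (A.finite_toSet.subset fun i hi => hi.1 :
      (sideSet u A x).Finite).cast_ncard_eq]
    exact_mod_cast h5

theorem normalVec_ne_zero (i : ℕ) : normalVec i ≠ 0 := by
  intro h
  have := congrArg (fun z : E3 => z 0) h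
  simp [normalVec] at this

theorem circ_injective {u : ι → E3} {s : Finset ι} (hGP : GP u s) (hs : 3 ≤ s.card) :
    Set.InjOn (fun i => circ (u i)) (s : Set ι) := by
  intro i hi j hj hij
  by_contra hne
  obtain ⟨v, hv1, hv2⟩ := hGP.exists_eval₂ hs hi hj hne 0 1
  have hv0 : v ≠ 0 := by
    rintro rfl
    simp at hv2
  have h1 : nrm v hv0 ∈ circ (u i) := by
    show inner ℝ (u i) ((nrm v hv0 : S2) : E3) = 0
    rw [inner_nrm, hv1, mul_zero]
  have h2 : nrm v hv0 ∈ circ (u j) := by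
    have h3 : circ (u i) = circ (u j) := hij
    rw [← h3]; exact h1
  have h4 : inner ℝ (u j) ((nrm v hv0 : S2) : E3) = 0 := h2
  rw [inner_nrm, hv2, mul_one] at h4
  exact (norm_inv_pos hv0).ne' h4

/-- for every `n ≥ 3` there is a simple arrangement of `n` great circles all of whose faces
have at most five sides -/
theorem upper_bound {n : ℕ} (hn : 3 ≤ n) : ∃ A : Finset (Set S2), A.card = n ∧
    IsSimpleArrangement A ∧ ∀ F, IsFace A F → numSides A F ≤ 5 := by
  classical
  have hcard : 3 ≤ (Finset.range n).card := by simpa using hn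
  have hGP := gp_normalVec (Finset.range n)
  refine ⟨(Finset.range n).image fun i => circ (normalVec i), ?_, ⟨?_, ?_⟩, ?_⟩
  · rw [Finset.card_image_of_injOn (circ_injective hGP hcard), Finset.card_range]
  · intro C hC
    obtain ⟨i, -, rfl⟩ := Finset.mem_image.1 hC
    exact ⟨normalVec i, normalVec_ne_zero i, rfl⟩
  · intro C₁ h₁ C₂ h₂ C₃ h₃ h12 h13 h23 x ⟨hx1, hx2, hx3⟩
    obtain ⟨i, hi, rfl⟩ := Finset.mem_image.1 h₁
    obtain ⟨j, hj, rfl⟩ := Finset.mem_image.1 h₂
    obtain ⟨k, hk, rfl⟩ := Finset.mem_image.1 h₃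
    exact S2_ne_zero x (hGP i hi j hj k hk (fun h => h12 (by rw [h])) (fun h => h13 (by rw [h]))
      (fun h => h23 (by rw [h])) _ hx1 hx2 hx3)
  · rintro F ⟨x, hx, rfl⟩
    rw [mem_complementOf] at hx
    rw [numSides_eq hGP hcard hx]
    exact sideSet_normalVec_le n x hx

end Pool.Agent.Lib.MP_2b14c6_co
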