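import Pool.Agent.Lib.MP_2b14c6_co.Defs
import Pool.Agent.Lib.MP_2b14c6_co.Geom

/-!
# Faces and sides of an arrangement of great circles in terms of normal vectors
-/

set_option autoImplicit false

namespace Pool.Agent.Lib.MP_2b14c6_co

open Set

variable {ι : Type*}

/-- the great circle with normal vector `u` -/
def circ (u : E3) : Set S2 := {x : S2 | inner ℝ u (x : E3) = 0}

theorem norm_S2 (x : S2) : ‖(x : E3)‖ = 1 := by
  have := x.2
  rwa [mem_sphere_zero_iff_norm] at this

theorem S2_ne_zero (x : S2) : (x : E3) ≠ 0 := by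
  intro h
  have := norm_S2 x
  rw [h, norm_zero] at this
  exact zero_ne_one this

/-- normalisation -/
noncomputable def nrm (z : E3) (hz : z ≠ 0) : S2 :=
  ⟨‖z‖⁻¹ • z, by
    rw [mem_sphere_zero_iff_norm, norm_smul, norm_inv, norm_norm,
      inv_mul_cancel₀ (norm_ne_zero_iff.2 hz)]⟩

theorem coe_nrm (z : E3) (hz : z ≠ 0) : ((nrm z hz : S2) : E3) = ‖z‖⁻¹ • z := rfl

theorem inner_nrm (u z : E3) (hz : z ≠ 0) :
    inner ℝ u ((nrm z hz : S2) : E3) = ‖z‖⁻¹ * inner ℝ u z := by
  rw [coe_nrm, inner_smul_right]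

theorem norm_inv_pos {z : E3} (hz : z ≠ 0) : 0 < ‖z‖⁻¹ := inv_pos.2 (norm_pos_iff.2 hz)

/-- the trace on the sphere of a convex cone is connected -/
theorem isPreconnected_of_cone {K : Set E3} (hK : Convex ℝ K) (h0 : (0 : E3) ∉ K)
    (hc : ∀ z ∈ K, ∀ c : ℝ, 0 < c → c • z ∈ K) : IsPreconnected {y : S2 | (y : E3) ∈ K} := by
  have hne : ∀ z : K, (z : E3) ≠ 0 := fun z h => h0 (h ▸ z.2)
  have heq : {y : S2 | (y : E3) ∈ K} = Set.range (fun z : K => nrm (z : E3) (hne z)) := by
    ext y
    constructor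
    · intro hy
      refine ⟨⟨(y : E3), hy⟩, ?_⟩
      apply Subtype.ext
      rw [coe_nrm, norm_S2]
      simp
    · rintro ⟨z, rfl⟩
      exact hc _ z.2 _ (norm_inv_pos (hne z))
  rw [heq]
  have : PreconnectedSpace K := isPreconnected_iff_preconnectedSpace.1 hK.isPreconnected
  apply isPreconnected_range
  apply Continuous.subtype_mk
  exact (continuous_norm.comp continuous_subtype_val).inv₀
    (fun z => norm_ne_zero_iff.2 (hne z)) |>.smul continuous_subtype_val

/-- the open cell of `x` on the sphere -/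
def cell (u : ι → E3) (s : Finset ι) (x : E3) : Set S2 :=
  {y : S2 | ∀ i ∈ s, 0 < inner ℝ (u i) (y : E3) * inner ℝ (u i) x}

/-- the closed cell of `x` on the sphere -/
def ccell (u : ι → E3) (s : Finset ι) (x : E3) : Set S2 :=
  {y : S2 | ∀ i ∈ s, 0 ≤ inner ℝ (u i) (y : E3) * inner ℝ (u i) x}

theorem continuous_val (u : E3) : Continuous (fun y : S2 => inner ℝ u (y : E3)) :=
  continuous_const.inner continuous_subtype_val

theorem isOpen_cell (u : ι → E3) (s : Finset ι) (x : E3) : IsOpen (cell u s x) := by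
  have : cell u s x = ⋂ i ∈ s, {y : S2 | 0 < inner ℝ (u i) (y : E3) * inner ℝ (u i) x} := by
    ext y; simp [cell]
  rw [this]
  exact isOpen_biInter_finset fun i _ =>
    isOpen_lt continuous_const ((continuous_val (u i)).mul continuous_const)

theorem isClosed_ccell (u : ι → E3) (s : Finset ι) (x : E3) : IsClosed (ccell u s x) := by
  have : ccell u s x = ⋂ i ∈ s, {y : S2 | 0 ≤ inner ℝ (u i) (y : E3) * inner ℝ (u i) x} := by
    ext y; simp [ccell]
  rw [this]
  exact isClosed_biInter fun i _ =>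
    isClosed_le continuous_const ((continuous_val (u i)).mul continuous_const)

theorem isPreconnected_cell (u : ι → E3) {s : Finset ι} (hs : s.Nonempty) (x : E3) :
    IsPreconnected (cell u s x) := by
  apply isPreconnected_of_cone (K := {z : E3 | ∀ i ∈ s, 0 < inner ℝ (u i) z * inner ℝ (u i) x})
  · intro z hz w hw a b ha hb hab i hi
    rw [inner_add_right, inner_smul_right, inner_smul_right]
    have h1 := hz i hi
    have h2 := hw i hi
    rcases ha.lt_or_eq with ha' | ha'
    · have := mul_pos ha' h1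
      have := mul_nonneg hb h2.le
      nlinarith
    · have hb1 : b = 1 := by linarith
      rw [← ha', hb1]
      linarith
  · intro h
    obtain ⟨i, hi⟩ := hs
    have := h i hi
    simp at this
  · intro z hz c hc i hi
    rw [inner_smul_right]
    have := mul_pos hc (hz i hi)
    nlinarith

theorem mem_complementOf [DecidableEq (Set S2)] {u : ι → E3} {s : Finset ι} {y : S2} :
    y ∈ complementOf (s.image fun i => circ (u i)) ↔ ∀ i ∈ s, inner ℝ (u i) (y : E3) ≠ 0 := by
  simp only [complementOf, Finset.mem_image, forall_exists_index, and_imp,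
    forall_apply_eq_imp_iff₂, Set.mem_ofPred_eq, circ, ne_eq]

/-- faces are cells -/
theorem component_eq_cell [DecidableEq (Set S2)] {u : ι → E3} {s : Finset ι} (hs : s.Nonempty) {x : S2}
    (hx : ∀ i ∈ s, inner ℝ (u i) (x : E3) ≠ 0) :
    connectedComponentIn (complementOf (s.image fun i => circ (u i))) x = cell u s x := by
  have hxc : x ∈ complementOf (s.image fun i => circ (u i)) := mem_complementOf.2 hx
  apply Set.Subset.antisymm
  · intro y hy i hi
    have hpc := isPreconnected_connectedComponentIn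
      (F := complementOf (s.image fun i => circ (u i))) (x := x)
    have hsub := connectedComponentIn_subset (complementOf (s.image fun i => circ (u i))) x
    have hcont : Continuous (fun y : S2 => inner ℝ (u i) (y : E3) * inner ℝ (u i) (x : E3)) :=
      (continuous_val (u i)).mul continuous_const
    refine hpc.subset_left_of_subset_union (u := {y : S2 | 0 < inner ℝ (u i) (y : E3) *
      inner ℝ (u i) (x : E3)}) (v := {y : S2 | inner ℝ (u i) (y : E3) *
      inner ℝ (u i) (x : E3) < 0}) (isOpen_lt continuous_const hcont)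
      (isOpen_lt hcont continuous_const) ?_ ?_ ⟨x, mem_connectedComponentIn hxc,
        mul_self_pos.2 (hx i hi)⟩ hy
    · rw [Set.disjoint_left]
      intro z h1 h2
      have h1' : 0 < inner ℝ (u i) (z : E3) * inner ℝ (u i) (x : E3) := h1
      have h2' : inner ℝ (u i) (z : E3) * inner ℝ (u i) (x : E3) < 0 := h2
      exact lt_asymm h1' h2'
    · intro z hz
      have h1 := mem_complementOf.1 (hsub hz) i hi
      rcases lt_or_gt_of_ne (mul_ne_zero h1 (hx i hi)) with h | h
      · exact Or.inr h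
      · exact Or.inl h
  · refine (isPreconnected_cell u hs x).subset_connectedComponentIn
      (fun i hi => mul_self_pos.2 (hx i hi)) fun y hy => ?_
    rw [mem_complementOf]
    intro i hi h0
    have := hy i hi
    rw [h0] at this; simp at this

theorem closure_cell {u : ι → E3} {s : Finset ι} {x : S2}
    (hx : ∀ i ∈ s, inner ℝ (u i) (x : E3) ≠ 0) : closure (cell u s x) = ccell u s x := by
  apply Set.Subset.antisymm
  · exact closure_minimal (fun y hy i hi => (hy i hi).le) (isClosed_ccell u s x)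
  · intro y hy
    rw [Metric.mem_closure_iff]
    intro ε hε
    set δ := min (ε / 4) (1 / 2) with hδ
    have hδ0 : 0 < δ := lt_min (by linarith) (by norm_num)
    have hδ1 : δ ≤ 1 / 2 := min_le_right _ _
    have hδ2 : δ ≤ ε / 4 := min_le_left _ _
    set w : E3 := (y : E3) + δ • (x : E3) with hw
    have hwn1 : ‖w‖ ≤ 1 + δ := by
      calc ‖w‖ ≤ ‖(y : E3)‖ + ‖δ • (x : E3)‖ := norm_add_le _ _
        _ = 1 + δ := by rw [norm_smul, norm_S2, norm_S2, Real.norm_of_nonneg hδ0.le, mul_one]
    have hwn2 : 1 - δ ≤ ‖w‖ := by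
      have h1 : ‖(y : E3)‖ ≤ ‖w‖ + ‖δ • (x : E3)‖ := by
        have : (y : E3) = w - δ • (x : E3) := by rw [hw]; abel
        calc ‖(y : E3)‖ = ‖w - δ • (x : E3)‖ := by rw [← this]
          _ ≤ _ := norm_sub_le _ _
      rw [norm_smul, norm_S2, norm_S2, Real.norm_of_nonneg hδ0.le, mul_one] at h1
      linarith
    have hw0 : w ≠ 0 := by
      rw [← norm_pos_iff]; linarith
    refine ⟨nrm w hw0, fun i hi => ?_, ?_⟩
    · rw [inner_nrm, hw, inner_add_right, inner_smul_right]
      have h1 := hy i hi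
      have h2 := mul_pos hδ0 (mul_self_pos.2 (hx i hi))
      have h3 := norm_inv_pos hw0
      have h4 : 0 < (inner ℝ (u i) (y : E3) + δ * inner ℝ (u i) (x : E3)) *
          inner ℝ (u i) (x : E3) := by nlinarith
      have h5 := mul_pos h3 h4
      rw [hw] at h5
      nlinarith
    · rw [dist_comm, Subtype.dist_eq, dist_eq_norm, coe_nrm]
      have e1 : ‖w‖⁻¹ • w - (y : E3) = (‖w‖⁻¹ - 1) • w + δ • (x : E3) := by
        rw [sub_smul, one_smul, hw]; abel
      have hn : 0 < ‖w‖ := norm_pos_iff.2 hw0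
      have e2 : ‖(‖w‖⁻¹ - 1) • w‖ ≤ δ := by
        rw [norm_smul, Real.norm_eq_abs]
        have : |‖w‖⁻¹ - 1| * ‖w‖ = |1 - ‖w‖| := by
          rw [← abs_of_pos hn, ← abs_mul, abs_of_pos hn, sub_mul, inv_mul_cancel₀ hn.ne', one_mul]
        rw [this, abs_le]
        constructor <;> linarith
      calc ‖‖w‖⁻¹ • w - (y : E3)‖ = ‖(‖w‖⁻¹ - 1) • w + δ • (x : E3)‖ := by rw [e1]
        _ ≤ ‖(‖w‖⁻¹ - 1) • w‖ + ‖δ • (x : E3)‖ := norm_add_le _ _
        _ ≤ δ + δ := by
          gcongr
          rw [norm_smul, norm_S2, Real.norm_of_nonneg hδ0.le, mul_one]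
        _ < ε := by linarith

/-- the closed edge `i` -/
def edge (u : ι → E3) (s : Finset ι) (x : E3) (i : ι) : Set S2 :=
  {y : S2 | inner ℝ (u i) (y : E3) = 0 ∧ ∀ j ∈ s, 0 ≤ inner ℝ (u j) (y : E3) * inner ℝ (u j) x}

theorem frontier_cell {u : ι → E3} {s : Finset ι} {x : S2}
    (hx : ∀ i ∈ s, inner ℝ (u i) (x : E3) ≠ 0) :
    frontier (cell u s x) = ccell u s x \ cell u s x := by
  rw [frontier, closure_cell hx, (isOpen_cell u s x).interior_eq]

theorem edge_subset_frontier {u : ι → E3} {s : Finset ι} {x : S2}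
    (hx : ∀ i ∈ s, inner ℝ (u i) (x : E3) ≠ 0) {i : ι} (hi : i ∈ s) :
    edge u s x i ⊆ frontier (cell u s x) := by
  rw [frontier_cell hx]
  rintro y ⟨h1, h2⟩
  refine ⟨h2, fun h => ?_⟩
  have := h i hi
  rw [h1] at this; simp at this

theorem isPreconnected_edge {u : ι → E3} {s : Finset ι} (hGP : GP u s) (hs : 3 ≤ s.card) {x : S2}
    (hx : ∀ i ∈ s, inner ℝ (u i) (x : E3) ≠ 0) (i : ι) :
    IsPreconnected (edge u s x i) := by
  have h := isPreconnected_of_cone (K := {z : E3 | z ≠ 0 ∧ inner ℝ (u i) z = 0 ∧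
    ∀ j ∈ s, 0 ≤ inner ℝ (u j) z * inner ℝ (u j) (x : E3)}) ?_ ?_ ?_
  · have heq : edge u s x i = {y : S2 | (y : E3) ∈ {z : E3 | z ≠ 0 ∧ inner ℝ (u i) z = 0 ∧
        ∀ j ∈ s, 0 ≤ inner ℝ (u j) z * inner ℝ (u j) (x : E3)}} := by
      ext y
      exact ⟨fun h => ⟨S2_ne_zero y, h.1, h.2⟩, fun h => ⟨h.2.1, h.2.2⟩⟩
    rw [heq]
    exact h
  · rintro z ⟨hz0, hz1, hz2⟩ w ⟨hw0, hw1, hw2⟩ a b ha hb hab
    have hin : ∀ j ∈ s, 0 ≤ a * (inner ℝ (u j) z * inner ℝ (u j) (x : E3)) ∧
        0 ≤ b * (inner ℝ (u j) w * inner ℝ (u j) (x : E3)) := fun j hj =>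
      ⟨mul_nonneg ha (hz2 j hj), mul_nonneg hb (hw2 j hj)⟩
    refine ⟨fun h => ?_, ?_, fun j hj => ?_⟩
    · -- the sum vanishes: all values vanish
      have hval : ∀ j ∈ s, a * (inner ℝ (u j) z * inner ℝ (u j) (x : E3)) = 0 ∧
          b * (inner ℝ (u j) w * inner ℝ (u j) (x : E3)) = 0 := by
        intro j hj
        have h1 : inner ℝ (u j) (a • z + b • w) * inner ℝ (u j) (x : E3) = 0 := by
          rw [h, inner_zero_right, zero_mul]
        rw [inner_add_right, inner_smul_right, inner_smul_right] at h1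
        obtain ⟨h2, h3⟩ := hin j hj
        constructor <;> nlinarith
      rcases ha.lt_or_eq with ha' | ha'
      · apply hz0
        apply hGP.eq_zero hs
        intro j hj
        have := (mul_eq_zero.1 (hval j hj).1).resolve_left ha'.ne'
        exact (mul_eq_zero.1 this).resolve_right (hx j hj)
      · have hb1 : b = 1 := by linarith
        apply hw0
        apply hGP.eq_zero hs
        intro j hj
        have := (mul_eq_zero.1 (hval j hj).2).resolve_left (by rw [hb1]; exact one_ne_zero)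
        exact (mul_eq_zero.1 this).resolve_right (hx j hj)
    · rw [inner_add_right, inner_smul_right, inner_smul_right, hz1, hw1]; simp
    · rw [inner_add_right, inner_smul_right, inner_smul_right]
      have := hin j hj
      nlinarith
  · rintro ⟨h, -⟩
    exact h rfl
  · rintro z ⟨hz0, hz1, hz2⟩ c hc
    refine ⟨smul_ne_zero hc.ne' hz0, by rw [inner_smul_right, hz1, mul_zero], fun j hj => ?_⟩
    rw [inner_smul_right, mul_assoc]
    exact mul_nonneg hc.le (hz2 j hj)

/-- an edge with a strict point is not a single point -/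
theorem edge_nontrivial {u : ι → E3} {s : Finset ι} (hGP : GP u s) (hs : 3 ≤ s.card) {x : S2}
    {i : ι} (hi : i ∈ sideSet u s (x : E3)) :
    (edge u s x i).Nontrivial := by
  obtain ⟨his, z, hz, hz'⟩ := hi
  obtain ⟨j, hj, hji, -⟩ := exists_third hs i i
  obtain ⟨k, hk, hki, hkj⟩ := exists_third hs i j
  obtain ⟨v, hv1, hv2, hv3⟩ := hGP.exists_eval his hj hk hji.symm hki.symm hkj.symm 0 0 1
  obtain ⟨ε, hε, hpert⟩ := exists_pert s (fun j => inner ℝ (u j) z * inner ℝ (u j) (x : E3))
    (fun j => inner ℝ (u j) v * inner ℝ (u j) (x : E3)) (fun j => j ≠ i)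
    (fun j hj hji => hz' j hj hji)
  set w := z + ε • v with hw
  have hwi : inner ℝ (u i) w = 0 := by
    rw [hw, inner_add_right, inner_smul_right, hz, hv1]; simp
  have hwj : ∀ j ∈ s, j ≠ i → 0 < inner ℝ (u j) w * inner ℝ (u j) (x : E3) := by
    intro j hj hji
    have := hpert ε (abs_of_pos hε).le j hj hji
    rw [hw, inner_add_right, inner_smul_right]
    nlinarith
  have hzj := hz' j hj hji
  have hz0 : z ≠ 0 := by
    rintro rfl
    simp at hzj
  have hwj' := hwj j hj hji
  have hw0 : w ≠ 0 := by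
    intro h
    rw [h] at hwj'; simp at hwj'
  have hmem : ∀ y : E3, ∀ hy : y ≠ 0, inner ℝ (u i) y = 0 →
      (∀ j ∈ s, j ≠ i → 0 < inner ℝ (u j) y * inner ℝ (u j) (x : E3)) →
      nrm y hy ∈ edge u s x i := by
    intro y hy h1 h2
    refine ⟨by rw [inner_nrm, h1, mul_zero], fun l hl => ?_⟩
    rw [inner_nrm, mul_assoc]
    apply mul_nonneg (norm_inv_pos hy).le
    by_cases hli : l = i
    · rw [hli, h1, zero_mul]
    · exact (h2 l hl hli).le
  refine ⟨nrm z hz0, hmem z hz0 hz hz', nrm w hw0, hmem w hw0 hwi hwj, fun h => ?_⟩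
  have h1 : ‖z‖⁻¹ • z = ‖w‖⁻¹ • w := congrArg Subtype.val h
  have h2 : ‖z‖⁻¹ * inner ℝ (u j) z = ‖w‖⁻¹ * inner ℝ (u j) w := by
    rw [← inner_smul_right, h1, inner_smul_right]
  have h3 : inner ℝ (u j) w = inner ℝ (u j) z := by
    rw [hw, inner_add_right, inner_smul_right, hv2]; ring
  rw [h3] at h2
  have hzj0 : inner ℝ (u j) z ≠ 0 := by
    intro h
    rw [h] at hzj; simp at hzj
  have h4 : ‖z‖⁻¹ = ‖w‖⁻¹ := mul_right_cancel₀ hzj0 h2
  have h5 : z = w := by
    rw [← h4] at h1
    exact smul_right_injective E3 (norm_inv_pos hz0).ne' h1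
  have h6 : inner ℝ (u k) w = inner ℝ (u k) z + ε := by
    rw [hw, inner_add_right, inner_smul_right, hv3]; ring
  rw [← h5] at h6
  linarith

/-- a nontrivial edge has a strict point -/
theorem mem_sideSet_of_nontrivial {u : ι → E3} {s : Finset ι} (hGP : GP u s) (hs : 3 ≤ s.card)
    {x : S2} (hx : ∀ i ∈ s, inner ℝ (u i) (x : E3) ≠ 0) {i : ι} (hi : i ∈ s)
    (h : (edge u s x i).Nontrivial) : i ∈ sideSet u s (x : E3) := by
  obtain ⟨y, hy, w, hw, hne⟩ := h
  by_cases hopp : (w : E3) = -(y : E3)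
  · -- antipodal points are impossible
    exfalso
    have h0 : ∀ j ∈ s, inner ℝ (u j) (y : E3) = 0 := by
      intro j hj
      have h1 := hy.2 j hj
      have h2 := hw.2 j hj
      rw [hopp, inner_neg_right] at h2
      have h3 : inner ℝ (u j) (y : E3) * inner ℝ (u j) (x : E3) = 0 := by linarith
      exact (mul_eq_zero.1 h3).resolve_right (hx j hj)
    exact S2_ne_zero y (hGP.eq_zero hs h0)
  · refine ⟨hi, (y : E3) + (w : E3), by rw [inner_add_right, hy.1, hw.1, add_zero],
      fun j hj hji => ?_⟩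
    have h1 := hy.2 j hj
    have h2 := hw.2 j hj
    rw [inner_add_right, add_mul]
    refine lt_of_le_of_ne (add_nonneg h1 h2) fun h => ?_
    have e1 : inner ℝ (u j) (y : E3) = 0 := by
      have : inner ℝ (u j) (y : E3) * inner ℝ (u j) (x : E3) = 0 := by linarith
      exact (mul_eq_zero.1 this).resolve_right (hx j hj)
    have e2 : inner ℝ (u j) (w : E3) = 0 := by
      have : inner ℝ (u j) (w : E3) * inner ℝ (u j) (x : E3) = 0 := by linarith
      exact (mul_eq_zero.1 this).resolve_right (hx j hj)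
    -- both points lie on two circles
    obtain ⟨k, hk, hki, hkj⟩ := exists_third hs i j
    have hcomb : (inner ℝ (u k) (w : E3)) • (y : E3) - (inner ℝ (u k) (y : E3)) • (w : E3) = 0 := by
      apply hGP i hi j hj k hk hji.symm hki.symm hkj.symm
      · rw [inner_sub_right, inner_smul_right, inner_smul_right, hy.1, hw.1]; simp
      · rw [inner_sub_right, inner_smul_right, inner_smul_right, e1, e2]; simp
      · rw [inner_sub_right, inner_smul_right, inner_smul_right]; ring
    have hky : inner ℝ (u k) (y : E3) ≠ 0 := fun h =>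
      S2_ne_zero y (hGP i hi j hj k hk hji.symm hki.symm hkj.symm _ hy.1 e1 h)
    rw [sub_eq_zero] at hcomb
    have hnorm := congrArg norm hcomb
    rw [norm_smul, norm_smul, norm_S2, norm_S2, mul_one, mul_one, Real.norm_eq_abs,
      Real.norm_eq_abs] at hnorm
    rcases abs_eq_abs.1 hnorm with h' | h'
    · rw [h'] at hcomb
      exact hne (Subtype.ext (smul_right_injective E3 hky hcomb))
    · rw [h', neg_smul, ← smul_neg] at hcomb
      exact hopp (smul_right_injective E3 hky hcomb).symm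

/-- a boundary arc on the circle `i` lies in the edge `i` -/
theorem subset_edge {u : ι → E3} {s : Finset ι} {x : S2}
    (hx : ∀ i ∈ s, inner ℝ (u i) (x : E3) ≠ 0) {i : ι} {a : Set S2}
    (h1 : a ⊆ frontier (cell u s x)) (h2 : a ⊆ circ (u i)) : a ⊆ edge u s x i := by
  intro y hy
  have := h1 hy
  rw [frontier_cell hx] at this
  exact ⟨h2 hy, this.1⟩

/-- The number of sides of a face. -/
theorem numSides_eq [DecidableEq (Set S2)] {u : ι → E3} {s : Finset ι} (hGP : GP u s) (hs : 3 ≤ s.card) {x : S2}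
    (hx : ∀ i ∈ s, inner ℝ (u i) (x : E3) ≠ 0) :
    numSides (s.image fun i => circ (u i))
      (connectedComponentIn (complementOf (s.image fun i => circ (u i))) x) =
      (sideSet u s (x : E3)).encard := by
  have hne : s.Nonempty := Finset.card_pos.1 (by omega)
  rw [component_eq_cell hne hx, numSides]
  -- a strict point of an edge, on the sphere
  have hstrict : ∀ i ∈ sideSet u s (x : E3), ∃ y ∈ edge u s x i,
      ∀ j ∈ s, j ≠ i → inner ℝ (u j) (y : E3) ≠ 0 := by
    rintro i ⟨his, z, hz, hz'⟩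
    obtain ⟨j, hj, hji, -⟩ := exists_third hs i i
    have hz0 : z ≠ 0 := by
      rintro rfl
      have := hz' j hj hji
      simp at this
    refine ⟨nrm z hz0, ⟨by rw [inner_nrm, hz, mul_zero], fun l hl => ?_⟩, fun l hl hli h => ?_⟩
    · rw [inner_nrm, mul_assoc]
      apply mul_nonneg (norm_inv_pos hz0).le
      by_cases hli : l = i
      · rw [hli, hz, zero_mul]
      · exact (hz' l hl hli).le
    · rw [inner_nrm] at h
      have h1 := (mul_eq_zero.1 h).resolve_left (norm_inv_pos hz0).ne'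
      have h2 := hz' l hl hli
      rw [h1] at h2; simp at h2
  have harc : ∀ i ∈ sideSet u s (x : E3),
      IsBoundaryArc (s.image fun i => circ (u i)) (cell u s x) (edge u s x i) := by
    intro i hi
    have hnt := edge_nontrivial hGP hs hi
    refine ⟨edge_subset_frontier hx hi.1, ⟨hnt.nonempty, isPreconnected_edge hGP hs hx i⟩, hnt,
      circ (u i), Finset.mem_image_of_mem _ hi.1, fun y hy => hy.1⟩
  have himg : {a : Set S2 | Maximal (IsBoundaryArc (s.image fun i => circ (u i)) (cell u s x)) a} =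
      (fun i => edge u s x i) '' sideSet u s (x : E3) := by
    ext a
    constructor
    · rintro ⟨⟨h1, h2, h3, C, hC, h4⟩, hmax⟩
      obtain ⟨i, hi, rfl⟩ := Finset.mem_image.1 hC
      have hsub := subset_edge hx h1 h4
      have hside := mem_sideSet_of_nontrivial hGP hs hx hi (h3.mono hsub)
      exact ⟨i, hside, Set.Subset.antisymm (hmax (harc i hside) hsub) hsub⟩
    · rintro ⟨i, hi, rfl⟩
      refine ⟨harc i hi, fun b hb hsub => ?_⟩
      obtain ⟨h1, h2, h3, C, hC, h4⟩ := hb
      obtain ⟨j, hj, rfl⟩ := Finset.mem_image.1 hC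
      by_cases hji : j = i
      · rw [← hji]
        exact subset_edge hx h1 h4
      · obtain ⟨y, hy, hy'⟩ := hstrict i hi
        exact absurd (h4 (hsub hy)) (hy' j hj hji)
  rw [himg]
  apply Set.InjOn.encard_image
  intro i hi j hj hij
  by_contra hne
  obtain ⟨y, hy, hy'⟩ := hstrict i hi
  have : y ∈ edge u s x j := by
    have h : edge u s x i = edge u s x j := hij
    rw [← h]; exact hy
  exact hy' j hj.1 (Ne.symm hne) this.1

end Pool.Agent.Lib.MP_2b14c6_co
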